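import Mathlib

open scoped Matrix Matrix.Norms.L2Operator Kronecker

namespace H70CR

variable {K q p : Type} [Fintype K] [DecidableEq K] [Fintype q] [DecidableEq q]
  [Fintype p] [DecidableEq p]

/-- the star homomorphism `B ↦ 1 ⊗ B` -/
noncomputable def oneKron (K q : Type) [Fintype K] [DecidableEq K] [Fintype q] [DecidableEq q] :
    Matrix q q ℂ →⋆ₙₐ[ℂ] Matrix (K × q) (K × q) ℂ where
  toFun B := (1 : Matrix K K ℂ) ⊗ₖ B
  map_smul' c B := by simp [Matrix.kronecker_smul]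
  map_zero' := by simp
  map_add' B C := by simp [Matrix.kronecker_add]
  map_mul' B C := by rw [← Matrix.mul_kronecker_mul]; simp
  map_star' B := by simp [Matrix.star_eq_conjTranspose, Matrix.conjTranspose_kronecker]

lemma norm_oneKron_le (K : Type) [Fintype K] [DecidableEq K] (B : Matrix q q ℂ) :
    ‖(1 : Matrix K K ℂ) ⊗ₖ B‖ ≤ ‖B‖ :=
  NonUnitalStarAlgHom.norm_apply_le (oneKron K q) B

lemma norm_one_le (p : Type) [Fintype p] [DecidableEq p] : ‖(1 : Matrix p p ℂ)‖ ≤ 1 := by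
  have h := Matrix.l2_opNorm_conjTranspose_mul_self (1 : Matrix p p ℂ)
  simp only [Matrix.conjTranspose_one, mul_one] at h
  nlinarith [norm_nonneg (1 : Matrix p p ℂ)]

lemma norm_oneKron_rect_le (K : Type) [Fintype K] [DecidableEq K] (P : Matrix q p ℂ) :
    ‖(1 : Matrix K K ℂ) ⊗ₖ P‖ ≤ ‖P‖ := by
  have h := Matrix.l2_opNorm_conjTranspose_mul_self ((1 : Matrix K K ℂ) ⊗ₖ P)
  rw [Matrix.conjTranspose_kronecker, ← Matrix.mul_kronecker_mul, Matrix.conjTranspose_one,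
    mul_one] at h
  have h2 := norm_oneKron_le K (Pᴴ * P)
  rw [h, Matrix.l2_opNorm_conjTranspose_mul_self] at h2
  exact abs_le_of_sq_le_sq' (by nlinarith) (norm_nonneg _) |>.2

lemma norm_isometry_le (J : Matrix q p ℂ) (hJ : Jᴴ * J = 1) : ‖J‖ ≤ 1 := by
  have h := Matrix.l2_opNorm_conjTranspose_mul_self J
  rw [hJ] at h
  have := norm_one_le p
  nlinarith [norm_nonneg J]

lemma kraus (B : Matrix q q ℂ) (G : K → Matrix q p ℂ) (hG : ∑ k, (G k)ᴴ * G k = 1) :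
    ‖∑ k, (G k)ᴴ * B * G k‖ ≤ ‖B‖ := by
  let J : Matrix (K × q) p ℂ := Matrix.of fun ki j => G ki.1 ki.2 j
  have hJ : Jᴴ * J = 1 := by
    rw [← hG]
    ext i j
    simp [J, Matrix.mul_apply, Fintype.sum_prod_type, Matrix.sum_apply]
  have hJ1 : ‖J‖ ≤ 1 := norm_isometry_le J hJ
  have h : ∑ k, (G k)ᴴ * B * G k = Jᴴ * (((1 : Matrix K K ℂ) ⊗ₖ B) * J) := by
    ext i j
    simp only [Matrix.sum_apply, Matrix.mul_apply, Matrix.conjTranspose_apply, J, Matrix.of_apply,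
      Fintype.sum_prod_type, Matrix.kroneckerMap_apply, Matrix.one_apply, ite_mul, one_mul,
      zero_mul, Finset.sum_ite_irrel, Finset.sum_const_zero, Finset.sum_ite_eq,
      Finset.mem_univ, if_true]
    refine Finset.sum_congr rfl fun k _ => ?_
    simp only [Finset.sum_mul, Finset.mul_sum]
    rw [Finset.sum_comm]
    refine Finset.sum_congr rfl fun x _ => Finset.sum_congr rfl fun y _ => ?_
    ring
  rw [h]
  have h3 : ‖Jᴴ‖ ≤ 1 := by rw [Matrix.l2_opNorm_conjTranspose]; exact hJ1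
  have h4 := norm_oneKron_le K B
  calc ‖Jᴴ * (((1 : Matrix K K ℂ) ⊗ₖ B) * J)‖ ≤ ‖Jᴴ‖ * ‖((1 : Matrix K K ℂ) ⊗ₖ B) * J‖ :=
        Matrix.l2_opNorm_mul _ _
    _ ≤ 1 * (‖B‖ * 1) := by
        refine mul_le_mul h3 ?_ (norm_nonneg _) zero_le_one
        refine (Matrix.l2_opNorm_mul _ _).trans ?_
        exact mul_le_mul h4 hJ1 (norm_nonneg _) (norm_nonneg _)
    _ = ‖B‖ := by ring

lemma comp_compress {X : Type} {m : ℕ} (ι : X → Matrix q q ℂ) (P Q : Matrix q p ℂ)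
    (a : Matrix (Fin m) (Fin m) X) :
    Matrix.comp (Fin m) (Fin m) p p ℂ (a.map fun x => Pᴴ * ι x * Q) =
      ((1 : Matrix (Fin m) (Fin m) ℂ) ⊗ₖ P)ᴴ * Matrix.comp (Fin m) (Fin m) q q ℂ (a.map ι) *
        ((1 : Matrix (Fin m) (Fin m) ℂ) ⊗ₖ Q) := by
  ext ⟨i, r⟩ ⟨j, s⟩
  simp only [Matrix.comp_apply, Matrix.map_apply, Matrix.mul_apply, Matrix.conjTranspose_apply,
    Fintype.sum_prod_type, Matrix.kroneckerMap_apply, Matrix.one_apply, ite_mul, one_mul,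
    zero_mul, mul_ite, mul_zero, star_mul', apply_ite star, star_zero, star_one]
  simp

lemma cc_of_kraus {X : Type} {m : ℕ} (ι : X → Matrix q q ℂ) (φ : X → Matrix p p ℂ)
    (G : K → Matrix q p ℂ) (hG : ∑ k, (G k)ᴴ * G k = 1)
    (hφ : ∀ x, φ x = ∑ k, (G k)ᴴ * ι x * G k)
    (a : Matrix (Fin m) (Fin m) X) :
    ‖Matrix.comp (Fin m) (Fin m) p p ℂ (a.map φ)‖ ≤
      ‖Matrix.comp (Fin m) (Fin m) q q ℂ (a.map ι)‖ := by
  have h1 : Matrix.comp (Fin m) (Fin m) p p ℂ (a.map φ) =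
      ∑ k, ((1 : Matrix (Fin m) (Fin m) ℂ) ⊗ₖ G k)ᴴ *
        Matrix.comp (Fin m) (Fin m) q q ℂ (a.map ι) *
        ((1 : Matrix (Fin m) (Fin m) ℂ) ⊗ₖ G k) := by
    simp_rw [← comp_compress]
    ext ⟨i, r⟩ ⟨j, s⟩
    simp [Matrix.sum_apply, hφ]
  rw [h1]
  refine kraus _ _ ?_
  simp_rw [Matrix.conjTranspose_kronecker, ← Matrix.mul_kronecker_mul, Matrix.conjTranspose_one,
    mul_one]
  rw [← Matrix.one_kronecker_one, ← hG]
  ext ⟨i, r⟩ ⟨j, s⟩
  simp [Matrix.sum_apply, Finset.mul_sum]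

lemma cb_of_compress {X : Type} {m : ℕ} (ι : X → Matrix q q ℂ) (φ : X → Matrix p p ℂ)
    (P Q : Matrix q p ℂ) (hφ : ∀ x, φ x = Pᴴ * ι x * Q)
    (a : Matrix (Fin m) (Fin m) X) :
    ‖Matrix.comp (Fin m) (Fin m) p p ℂ (a.map φ)‖ ≤
      (‖P‖ * ‖Q‖) * ‖Matrix.comp (Fin m) (Fin m) q q ℂ (a.map ι)‖ := by
  have h1 : φ = fun x => Pᴴ * ι x * Q := funext hφ
  rw [h1, comp_compress]
  have h2 := norm_oneKron_rect_le (Fin m) P
  have h3 := norm_oneKron_rect_le (Fin m) Q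
  rw [← Matrix.l2_opNorm_conjTranspose] at h2
  refine (Matrix.l2_opNorm_mul _ _).trans ?_
  refine (mul_le_mul ((Matrix.l2_opNorm_mul _ _).trans
    (mul_le_mul h2 le_rfl (norm_nonneg _) (norm_nonneg _))) h3 (norm_nonneg _)
    (by positivity)).trans ?_
  apply le_of_eq; ring

/-- entrywise complex conjugation preserves the operator norm -/
lemma norm_map_star_le (B : Matrix q p ℂ) : ‖B.map star‖ ≤ ‖B‖ := by
  rw [Matrix.l2_opNorm_def]
  refine ContinuousLinearMap.opNorm_le_bound _ (norm_nonneg _) fun x => ?_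
  let y : EuclideanSpace ℂ p := WithLp.toLp 2 (fun i => star (x i))
  have hy : ‖y‖ = ‖x‖ := by
    simp [EuclideanSpace.norm_eq, y]
  have h := B.l2_opNorm_mulVec y
  rw [hy] at h
  refine le_trans (le_of_eq ?_) h
  rw [EuclideanSpace.norm_eq, EuclideanSpace.norm_eq]
  congr 1
  refine Finset.sum_congr rfl fun i _ => ?_
  congr 1
  simp only [LinearEquiv.trans_apply, LinearMap.coe_toContinuousLinearMap', Matrix.toLpLin_apply,
    Matrix.mulVec, dotProduct, Matrix.map_apply]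
  rw [← norm_star]
  simp [Matrix.mulVec, dotProduct, y]

end H70CR
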