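import Mathlib

open scoped Matrix

namespace H70CR

section
variable {R : Type*} [Ring R] [Algebra ℂ R]

lemma iota_mul_aux (T S : R) (hT : T * T = 0) (hS : S * S = 0) (hTST : T * S * T = T)
    (hSTS : S * T * S = S) (x0 y0 a b c d a' b' c' d' : ℂ) :
    ((x0 * y0) • (1 - S * T - T * S) + (a * a' + b * c') • (S * T) + (a * b' + b * d') • S +
      (c * a' + d * c') • T + (c * b' + d * d') • (T * S)) =
    (x0 • (1 - S * T - T * S) + a • (S * T) + b • S + c • T + d • (T * S)) *
      (y0 • (1 - S * T - T * S) + a' • (S * T) + b' • S + c' • T + d' • (T * S)) := by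
  obtain ⟨E, hE⟩ : ∃ E, E = S * T := ⟨_, rfl⟩
  obtain ⟨F, hF⟩ : ∃ F, F = T * S := ⟨_, rfl⟩
  have h1 : E * E = E := by rw [hE, ← mul_assoc, hSTS]
  have h2 : E * S = S := by rw [hE, hSTS]
  have h3 : E * T = 0 := by rw [hE, mul_assoc, hT, mul_zero]
  have h4 : E * F = 0 := by rw [hE, hF, mul_assoc, ← mul_assoc T T S, hT, zero_mul, mul_zero]
  have h5 : S * E = 0 := by rw [hE, ← mul_assoc, hS, zero_mul]
  have h6 : S * F = S := by rw [hF, ← mul_assoc, hSTS]
  have h7 : T * E = T := by rw [hE, ← mul_assoc, hTST]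
  have h8 : T * F = 0 := by rw [hF, ← mul_assoc, hT, zero_mul]
  have h9 : F * E = 0 := by rw [hE, hF, mul_assoc, ← mul_assoc S S T, hS, zero_mul, mul_zero]
  have h10 : F * S = 0 := by rw [hF, mul_assoc, hS, mul_zero]
  have h11 : F * T = T := by rw [hF, hTST]
  have h12 : F * F = F := by rw [hF, ← mul_assoc, hTST]
  rw [← hE, ← hF]
  simp only [mul_add, add_mul, smul_mul_assoc, mul_smul_comm, mul_sub, sub_mul, mul_one, one_mul,
    h1, h2, h3, h4, h5, h6, h7, h8, h9, h10, h11, h12, hT, hS, ← hE, ← hF, smul_zero, add_zero,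
    zero_add, sub_zero, sub_self]
  module

/-- the homomorphism `ℂ ⊕ M₂ → R` attached to `T, S` with `T² = S² = 0`, `TST = T`, `STS = S` -/
def iota (T S : R) (hT : T * T = 0) (hS : S * S = 0) (hTST : T * S * T = T)
    (hSTS : S * T * S = S) : (ℂ × Matrix (Fin 2) (Fin 2) ℂ) →ₐ[ℂ] R :=
  AlgHom.ofLinearMap
    { toFun := fun x => x.1 • (1 - S * T - T * S) + x.2 0 0 • (S * T) + x.2 0 1 • S +
        x.2 1 0 • T + x.2 1 1 • (T * S)
      map_add' := fun x y => by
        simp only [Prod.fst_add, Prod.snd_add, Matrix.add_apply]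
        module
      map_smul' := fun c x => by
        simp only [Prod.smul_fst, Prod.smul_snd, Matrix.smul_apply, RingHom.id_apply, smul_eq_mul]
        module }
    (by
      simp only [LinearMap.coe_mk, AddHom.coe_mk, Prod.fst_one, Prod.snd_one]
      simp only [one_smul, Matrix.one_apply_eq, ne_eq, zero_ne_one, one_ne_zero, not_false_eq_true,
        Matrix.one_apply_ne, zero_smul, add_zero]
      abel)
    (fun x y => by
      simp only [LinearMap.coe_mk, AddHom.coe_mk, Prod.fst_mul, Prod.snd_mul, Matrix.mul_apply,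
        Fin.sum_univ_two]
      exact iota_mul_aux T S hT hS hTST hSTS _ _ _ _ _ _ _ _ _ _)

lemma iota_apply (T S : R) (hT : T * T = 0) (hS : S * S = 0) (hTST : T * S * T = T)
    (hSTS : S * T * S = S) (x : ℂ × Matrix (Fin 2) (Fin 2) ℂ) :
    iota T S hT hS hTST hSTS x = x.1 • (1 - S * T - T * S) + x.2 0 0 • (S * T) + x.2 0 1 • S +
        x.2 1 0 • T + x.2 1 1 • (T * S) := rfl

end
end H70CR
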