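import Pool.Agent.H70R3.CR1
import Pool.Agent.H70R3.CR2
import Pool.Agent.H70R3.CR3

open scoped Matrix Matrix.Norms.L2Operator Kronecker

namespace H70CR

/-- rational matrices to complex matrices -/
noncomputable def rc : Matrix (Fin 17) (Fin 17) ℚ →+* Matrix (Fin 17) (Fin 17) ℂ :=
  (Rat.castHom ℂ).mapMatrix

lemma rc_apply (M : Matrix (Fin 17) (Fin 17) ℚ) (i j : Fin 17) : rc M i j = (M i j : ℂ) := rfl

lemma rc_conjTranspose (M : Matrix (Fin 17) (Fin 17) ℚ) : (rc M)ᴴ = rc Mᵀ := by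
  ext i j
  simp [rc_apply]

lemma rc_diagonal (d : Fin 17 → ℚ) : rc (Matrix.diagonal d) = Matrix.diagonal fun i => (d i : ℂ) := by
  ext i j
  rw [rc_apply]
  by_cases h : i = j
  · subst h; simp
  · simp [h]

noncomputable def Tc : Matrix (Fin 17) (Fin 17) ℂ := rc Tq
noncomputable def Sc : Matrix (Fin 17) (Fin 17) ℂ := rc Sq

lemma hTT : Tc * Tc = 0 := by rw [Tc, ← map_mul, Tq_sq, map_zero]
lemma hSS : Sc * Sc = 0 := by rw [Sc, ← map_mul, Sq_sq, map_zero]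
lemma hTST : Tc * Sc * Tc = Tc := by rw [Tc, Sc, ← map_mul, ← map_mul, TST]
lemma hSTS : Sc * Tc * Sc = Sc := by rw [Tc, Sc, ← map_mul, ← map_mul, STS]

/-- a certificate `Mᵀ M + L D Lᵀ = c` gives `N` with `Mᴴ M + Nᴴ N = c` -/
lemma exists_N (M L : Matrix (Fin 17) (Fin 17) ℚ) (d : Fin 17 → ℚ) (hd : ∀ i, 0 ≤ d i) (c : ℚ)
    (h : Mᵀ * M + L * Matrix.diagonal d * Lᵀ = Matrix.diagonal (fun _ => c)) :
    ∃ N : Matrix (Fin 17) (Fin 17) ℂ, (rc M)ᴴ * rc M + Nᴴ * N = (c : ℂ) • 1 := by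
  let r : Fin 17 → ℂ := fun i => ((Real.sqrt (d i) : ℝ) : ℂ)
  have hr : ∀ i, star (r i) * r i = ((d i : ℚ) : ℂ) := by
    intro i
    have h0 : (0 : ℝ) ≤ (d i : ℝ) := by exact_mod_cast hd i
    simp only [r, RCLike.star_def, Complex.conj_ofReal]
    rw [← Complex.ofReal_mul, Real.mul_self_sqrt h0]
    push_cast
    rfl
  refine ⟨Matrix.diagonal r * (rc L)ᴴ, ?_⟩
  have h1 := congrArg rc h
  rw [map_add, map_mul, map_mul, map_mul, rc_diagonal, rc_diagonal] at h1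
  rw [Matrix.conjTranspose_mul, Matrix.conjTranspose_conjTranspose, Matrix.diagonal_conjTranspose,
    rc_conjTranspose, rc_conjTranspose]
  have h2 : rc L * Matrix.diagonal (star r) * (Matrix.diagonal r * rc Lᵀ) =
      rc L * (Matrix.diagonal fun i => ((d i : ℚ) : ℂ)) * rc Lᵀ := by
    rw [← mul_assoc, mul_assoc (rc L), Matrix.diagonal_mul_diagonal]
    congr 3
    funext i
    exact hr i
  rw [h2, h1, Matrix.smul_one_eq_diagonal]

lemma norm_sq_le_of_add {q : Type} [Fintype q] [DecidableEq q] (M N : Matrix q q ℂ) (c : ℝ)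
    (hc : 0 ≤ c) (h : Mᴴ * M + Nᴴ * N = (c : ℂ) • 1) : ‖M‖ * ‖M‖ ≤ c := by
  let J : Matrix (q ⊕ q) q ℂ := Matrix.fromRows M N
  have hJ : Jᴴ * J = (c : ℂ) • 1 := by
    rw [← h]
    ext i j
    simp [J, Matrix.mul_apply, Fintype.sum_sum_type]
  have hJn : ‖J‖ * ‖J‖ ≤ c := by
    rw [← Matrix.l2_opNorm_conjTranspose_mul_self, hJ]
    refine (norm_smul_le _ _).trans ?_
    have := norm_one_le q
    rw [Complex.norm_real, Real.norm_eq_abs, abs_of_nonneg hc]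
    nlinarith
  let P : Matrix (q ⊕ q) q ℂ := Matrix.fromRows 1 0
  have hP : Pᴴ * P = 1 := by
    ext i j
    simp [P, Matrix.mul_apply, Fintype.sum_sum_type, Matrix.one_apply, eq_comm]
  have hPn := norm_isometry_le P hP
  have hM : M = Pᴴ * J := by
    ext i j
    simp [P, J, Matrix.mul_apply, Fintype.sum_sum_type, Matrix.one_apply]
  have hMn : ‖M‖ ≤ ‖J‖ := by
    calc ‖M‖ = ‖Pᴴ * J‖ := by rw [← hM]
      _ ≤ ‖Pᴴ‖ * ‖J‖ := Matrix.l2_opNorm_mul _ _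
      _ ≤ 1 * ‖J‖ := by
          rw [Matrix.l2_opNorm_conjTranspose]
          exact mul_le_mul_of_nonneg_right hPn (norm_nonneg _)
      _ = ‖J‖ := one_mul _
  nlinarith [norm_nonneg M, norm_nonneg J]

lemma norm_Tc : 2 * ‖Tc‖ < 1 := by
  obtain ⟨N, hN⟩ := exists_N Tq LT DT DT_nonneg (249/1000) certT
  have h := norm_sq_le_of_add (rc Tq) N (249/1000) (by norm_num) (by rw [hN]; norm_num)
  change 2 * ‖rc Tq‖ < 1
  nlinarith [norm_nonneg (rc Tq)]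

/-- compression to coordinates -/
lemma compress_submatrix (v : Fin 2 → Fin 17) (X : Matrix (Fin 17) (Fin 17) ℂ) :
    ((1 : Matrix (Fin 17) (Fin 17) ℂ).submatrix id v)ᴴ * X *
      ((1 : Matrix (Fin 17) (Fin 17) ℂ).submatrix id v) = X.submatrix v v := by
  ext i j
  simp [Matrix.mul_apply, Matrix.one_apply]

lemma isom_submatrix (v : Fin 2 → Fin 17) (hv : Function.Injective v) :
    ((1 : Matrix (Fin 17) (Fin 17) ℂ).submatrix id v)ᴴ *
      ((1 : Matrix (Fin 17) (Fin 17) ℂ).submatrix id v) = 1 := by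
  have h := compress_submatrix v 1
  rw [Matrix.mul_one] at h
  rw [h]
  exact Matrix.submatrix_one v hv

noncomputable abbrev io : (ℂ × Matrix (Fin 2) (Fin 2) ℂ) →ₐ[ℂ] Matrix (Fin 17) (Fin 17) ℂ :=
  iota Tc Sc hTT hSS hTST hSTS

lemma Sc_mul_Tc : Sc * Tc = rc (Sq * Tq) := by rw [Sc, Tc, map_mul]
lemma Tc_mul_Sc : Tc * Sc = rc (Tq * Sq) := by rw [Sc, Tc, map_mul]

lemma io_entry (x : ℂ × Matrix (Fin 2) (Fin 2) ℂ) (i j : Fin 17) :
    io x i j = x.1 * ((1 : Matrix (Fin 17) (Fin 17) ℂ) i j - ((Sq * Tq) i j : ℚ) -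
      ((Tq * Sq) i j : ℚ)) + x.2 0 0 * ((Sq * Tq) i j : ℚ) + x.2 0 1 * (Sq i j : ℚ) +
      x.2 1 0 * (Tq i j : ℚ) + x.2 1 1 * ((Tq * Sq) i j : ℚ) := by
  rw [io, iota_apply, Sc_mul_Tc, Tc_mul_Sc]
  simp only [Matrix.add_apply, Matrix.smul_apply, Matrix.sub_apply, smul_eq_mul, rc_apply, Sc, Tc]

/-- `λ(x) = (1-t) x₀ + t m₁₁` with `t = 49/100` -/
noncomputable def lam (x : ℂ × Matrix (Fin 2) (Fin 2) ℂ) : ℂ := 51/100 * x.1 + 49/100 * x.2 0 0

lemma v_ST : (Sq * Tq).submatrix ![0, 3] ![0, 3] = !![149/200, 0; 0, 49/200] := by decide +kernel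
lemma v_TS : (Tq * Sq).submatrix ![0, 3] ![0, 3] = !![0, 0; 0, 1/2] := by decide +kernel
lemma v_T : Tq.submatrix ![0, 3] ![0, 3] = !![0, 0; 49/100, 0] := by decide +kernel
lemma v_S : Sq.submatrix ![0, 3] ![0, 3] = !![0, 1/2; 0, 0] := by decide +kernel

lemma w_ST : (Sq * Tq).submatrix ![10, 8] ![10, 8] = !![49/100, 0; 0, 49/100] := by decide +kernel
lemma w_TS : (Tq * Sq).submatrix ![10, 8] ![10, 8] = !![0, 0; 0, 0] := by decide +kernel
lemma w_T : Tq.submatrix ![10, 8] ![10, 8] = !![0, 2/5; 0, 0] := by decide +kernel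
lemma w_S : Sq.submatrix ![10, 8] ![10, 8] = !![0, 0; 0, 0] := by decide +kernel

lemma u_ST : (Sq * Tq).submatrix ![15, 16] ![15, 16] = !![1, 0; 0, 0] := by decide +kernel
lemma u_TS : (Tq * Sq).submatrix ![15, 16] ![15, 16] = !![0, 0; 0, 1] := by decide +kernel
lemma u_T : Tq.submatrix ![15, 16] ![15, 16] = !![0, 0; 2/5, 0] := by decide +kernel
lemma u_S : Sq.submatrix ![15, 16] ![15, 16] = !![0, 5/2; 0, 0] := by decide +kernel

lemma z_ST : (Sq * Tq) 14 14 = 0 := by decide +kernel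
lemma z_TS : (Tq * Sq) 14 14 = 0 := by decide +kernel
lemma z_T : Tq 14 14 = 0 := by decide +kernel
lemma z_S : Sq 14 14 = 0 := by decide +kernel

lemma io_z (x : ℂ × Matrix (Fin 2) (Fin 2) ℂ) : io x 14 14 = x.1 := by
  rw [io_entry, z_ST, z_TS, z_T, z_S]
  simp

lemma io_submatrix (v : Fin 2 → Fin 17) (hv : Function.Injective v)
    (E F T S : Matrix (Fin 2) (Fin 2) ℚ)
    (hE : (Sq * Tq).submatrix v v = E) (hF : (Tq * Sq).submatrix v v = F)
    (hT : Tq.submatrix v v = T) (hS : Sq.submatrix v v = S)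
    (x : ℂ × Matrix (Fin 2) (Fin 2) ℂ) (i j : Fin 2) :
    (io x).submatrix v v i j = x.1 * ((1 : Matrix (Fin 2) (Fin 2) ℂ) i j - (E i j : ℚ) -
      (F i j : ℚ)) + x.2 0 0 * (E i j : ℚ) + x.2 0 1 * (S i j : ℚ) +
      x.2 1 0 * (T i j : ℚ) + x.2 1 1 * (F i j : ℚ) := by
  subst hE hF hT hS
  rw [Matrix.submatrix_apply, io_entry]
  have h1 : (1 : Matrix (Fin 17) (Fin 17) ℂ) (v i) (v j) = (1 : Matrix (Fin 2) (Fin 2) ℂ) i j := by
    simp [Matrix.one_apply, hv.eq_iff]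
  rw [h1]
  rfl

lemma inj_v : Function.Injective (![0, 3] : Fin 2 → Fin 17) := by decide
lemma inj_w : Function.Injective (![10, 8] : Fin 2 → Fin 17) := by decide
lemma inj_u : Function.Injective (![15, 16] : Fin 2 → Fin 17) := by decide

lemma io_v (x : ℂ × Matrix (Fin 2) (Fin 2) ℂ) :
    (io x).submatrix ![0, 3] ![0, 3] =
      (1/2 : ℂ) • !![x.2 0 0 + lam x, x.2 0 1; 49/50 * x.2 1 0, x.2 1 1 + lam x] := by
  ext i j
  rw [io_submatrix _ inj_v _ _ _ _ v_ST v_TS v_T v_S]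
  fin_cases i <;> fin_cases j <;> simp [lam] <;> ring

lemma io_w (x : ℂ × Matrix (Fin 2) (Fin 2) ℂ) :
    (io x).submatrix ![10, 8] ![10, 8] = !![lam x, 2/5 * x.2 1 0; 0, lam x] := by
  ext i j
  rw [io_submatrix _ inj_w _ _ _ _ w_ST w_TS w_T w_S]
  fin_cases i <;> fin_cases j <;> simp [lam] <;> ring

lemma io_u (x : ℂ × Matrix (Fin 2) (Fin 2) ℂ) :
    (io x).submatrix ![15, 16] ![15, 16] = !![x.2 0 0, 5/2 * x.2 0 1; 2/5 * x.2 1 0, x.2 1 1] := by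
  ext i j
  rw [io_submatrix _ inj_u _ _ _ _ u_ST u_TS u_T u_S]
  fin_cases i <;> fin_cases j <;> simp <;> ring

end H70CR
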