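import Pool.Agent.H70R3.CR4

open scoped Matrix Matrix.Norms.L2Operator Kronecker

namespace H70CR

lemma kraus_pair (s : ℂ) (hs : s * star s = 1/2) (C D : Matrix (Fin 17) (Fin 17) ℂ)
    (hCD : Cᴴ * C + Dᴴ * D = 1) :
    ∃ H : (Fin 17 ⊕ Fin 17) → Matrix (Fin 2) (Fin 17) ℂ,
      ∀ Y : Matrix (Fin 2) (Fin 2) ℂ, ∑ k, (H k)ᴴ * Y * H k =
        (1/2 : ℂ) • (Y 0 0 • (1 : Matrix (Fin 17) (Fin 17) ℂ) + Y 0 1 • C + Y 1 0 • Cᴴ +
          Y 1 1 • (1 : Matrix (Fin 17) (Fin 17) ℂ)) := by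
  let A1 : Matrix (Fin 17 ⊕ Fin 17) (Fin 17) ℂ := Matrix.fromRows (s • 1) 0
  let A2 : Matrix (Fin 17 ⊕ Fin 17) (Fin 17) ℂ := Matrix.fromRows (s • C) (s • D)
  have h11 : A1ᴴ * A1 = (1/2 : ℂ) • 1 := by
    simp only [A1, Matrix.conjTranspose_fromRows_eq_fromCols_conjTranspose,
      Matrix.fromCols_mul_fromRows, Matrix.conjTranspose_smul, Matrix.conjTranspose_one,
      Matrix.smul_mul, Matrix.mul_smul, Matrix.mul_zero, smul_smul, add_zero, Matrix.one_mul, hs]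
  have h12 : A1ᴴ * A2 = (1/2 : ℂ) • C := by
    simp only [A1, A2, Matrix.conjTranspose_fromRows_eq_fromCols_conjTranspose,
      Matrix.fromCols_mul_fromRows, Matrix.conjTranspose_smul, Matrix.conjTranspose_one,
      Matrix.smul_mul, Matrix.mul_smul, Matrix.conjTranspose_zero, Matrix.zero_mul, smul_smul,
      smul_zero, add_zero, Matrix.one_mul, hs]
  have h21 : A2ᴴ * A1 = (1/2 : ℂ) • Cᴴ := by
    simp only [A1, A2, Matrix.conjTranspose_fromRows_eq_fromCols_conjTranspose,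
      Matrix.fromCols_mul_fromRows, Matrix.conjTranspose_smul,
      Matrix.smul_mul, Matrix.mul_smul, Matrix.mul_zero, smul_smul,
      smul_zero, add_zero, Matrix.mul_one, hs]
  have h22 : A2ᴴ * A2 = (1/2 : ℂ) • 1 := by
    rw [← hCD]
    simp only [A2, Matrix.conjTranspose_fromRows_eq_fromCols_conjTranspose,
      Matrix.fromCols_mul_fromRows, Matrix.conjTranspose_smul,
      Matrix.smul_mul, Matrix.mul_smul, smul_smul, smul_add, hs]
  refine ⟨fun k => Matrix.of ![A1 k, A2 k], fun Y => ?_⟩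
  have h : ∑ k, (Matrix.of ![A1 k, A2 k] : Matrix (Fin 2) (Fin 17) ℂ)ᴴ * Y *
      (Matrix.of ![A1 k, A2 k] : Matrix (Fin 2) (Fin 17) ℂ) =
      Y 0 0 • (A1ᴴ * A1) + Y 0 1 • (A1ᴴ * A2) + Y 1 0 • (A2ᴴ * A1) + Y 1 1 • (A2ᴴ * A2) := by
    ext i j
    simp only [Matrix.sum_apply, Matrix.mul_apply, Matrix.add_apply, Matrix.smul_apply,
      Fin.sum_univ_two, Matrix.conjTranspose_apply, Matrix.of_apply, Matrix.cons_val_zero,
      Matrix.cons_val_one, smul_eq_mul, Finset.mul_sum, ← Finset.sum_add_distrib]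
    refine Finset.sum_congr rfl fun k _ => ?_
    ring
  rw [h, h11, h12, h21, h22]
  module

/-- the antilinear map on the model algebra -/
noncomputable def al0 : (ℂ × Matrix (Fin 2) (Fin 2) ℂ) →ₛₗ[starRingEnd ℂ]
    (ℂ × Matrix (Fin 2) (Fin 2) ℂ) where
  toFun x := (star (lam x), !![star (lam x), -(1/50) * star (x.2 1 0); 0, star (lam x)])
  map_add' x y := by
    ext i j
    · simp [lam]; ring
    · fin_cases i <;> fin_cases j <;> simp [lam] <;> ring
  map_smul' c x := by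
    ext i j
    · simp [lam]; ring
    · fin_cases i <;> fin_cases j <;> simp [lam] <;> ring

lemma al0_apply (x : ℂ × Matrix (Fin 2) (Fin 2) ℂ) :
    al0 x = (star (lam x), !![star (lam x), -(1/50) * star (x.2 1 0); 0, star (lam x)]) := rfl

lemma al0_one : al0 1 = 1 := by
  rw [al0_apply]
  ext i j
  · simp [lam]; norm_num
  · fin_cases i <;> fin_cases j <;> simp [lam] <;> norm_num

/-- `conj ∘ α` -/
noncomputable def Phi (x : ℂ × Matrix (Fin 2) (Fin 2) ℂ) : Matrix (Fin 17) (Fin 17) ℂ :=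
  lam x • 1 - (1/50 * x.2 1 0 : ℂ) • Sc

lemma io_al0 (x : ℂ × Matrix (Fin 2) (Fin 2) ℂ) : io (al0 x) = (Phi x).map star := by
  have h1 : io (al0 x) = star (lam x) • (1 : Matrix (Fin 17) (Fin 17) ℂ) -
      (1/50 * star (x.2 1 0) : ℂ) • Sc := by
    rw [io, iota_apply, al0_apply]
    simp only [Matrix.of_apply, Matrix.cons_val_zero, Matrix.cons_val_one, Matrix.cons_val',
      Matrix.cons_val_fin_one]
    module
  rw [h1, Phi]
  ext i j
  simp only [Matrix.sub_apply, Matrix.smul_apply, smul_eq_mul, Matrix.map_apply, star_sub,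
    star_mul', Sc, rc_apply, Matrix.one_apply]
  simp

/-- the averaged map `θ_α` on the model algebra -/
noncomputable def thal (x : ℂ × Matrix (Fin 2) (Fin 2) ℂ) : Matrix (Fin 2) (Fin 2) ℂ :=
  (1/2 : ℂ) • (x.2 + (al0 x).2ᴴ)

lemma thal_eq (x : ℂ × Matrix (Fin 2) (Fin 2) ℂ) :
    thal x = (io x).submatrix ![0, 3] ![0, 3] := by
  rw [io_v, thal, al0_apply]
  congr 1
  ext i j
  fin_cases i <;> fin_cases j <;> simp
  ring

/-- Kraus form of `conj ∘ α` through the compression `Y` -/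
lemma Phi_kraus : ∃ H : (Fin 17 ⊕ Fin 17) → Matrix (Fin 2) (Fin 17) ℂ,
    (∑ k, (H k)ᴴ * H k = 1) ∧
      ∀ x : ℂ × Matrix (Fin 2) (Fin 2) ℂ,
        Phi x = ∑ k, (H k)ᴴ * (io x).submatrix ![10, 8] ![10, 8] * H k := by
  obtain ⟨N, hN⟩ := exists_N Sq LS DS DS_nonneg 100 certS
  let s : ℂ := ((Real.sqrt (1/2) : ℝ) : ℂ)
  have hs : s * star s = 1/2 := by
    simp only [s, RCLike.star_def, Complex.conj_ofReal]
    rw [← Complex.ofReal_mul, Real.mul_self_sqrt (by norm_num)]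
    push_cast
    rfl
  have hCD : (-(1/10 : ℂ) • Sc)ᴴ * (-(1/10 : ℂ) • Sc) + ((1/10 : ℂ) • N)ᴴ * ((1/10 : ℂ) • N)
      = 1 := by
    have h1 : (-(1/10 : ℂ) • Sc)ᴴ * (-(1/10 : ℂ) • Sc) + ((1/10 : ℂ) • N)ᴴ * ((1/10 : ℂ) • N) =
        (1/100 : ℂ) • ((rc Sq)ᴴ * rc Sq + Nᴴ * N) := by
      simp only [Matrix.conjTranspose_smul, Matrix.smul_mul, Matrix.mul_smul, smul_smul, smul_add,
        Sc]
      congr 2 <;> norm_num
    rw [h1, hN, smul_smul]
    norm_num
  obtain ⟨H, hH⟩ := kraus_pair s hs _ _ hCD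
  refine ⟨H, ?_, fun x => ?_⟩
  · have h := hH 1
    simp only [Matrix.mul_one] at h
    rw [h]
    simp only [Matrix.one_apply_eq, ne_eq, zero_ne_one, one_ne_zero, not_false_eq_true,
        Matrix.one_apply_ne]
    module
  · rw [hH, io_w, Phi]
    simp only [Matrix.of_apply, Matrix.cons_val_zero, Matrix.cons_val_one, Matrix.cons_val',
      Matrix.cons_val_fin_one]
    module

end H70CR
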