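import Pool.Agent.H70R3.CR5
import Pool.Agent.H70R3.CR6

open scoped Matrix Matrix.Norms.L2Operator Kronecker

namespace H70CR

lemma rc_transpose (M : Matrix (Fin 17) (Fin 17) ℚ) : rc Mᵀ = (rc M)ᵀ := by
  ext i j
  simp [rc_apply]

/-- Kraus form of the transpose of `conj ∘ α` through the compression `Y` -/
lemma PhiT_kraus : ∃ H : (Fin 17 ⊕ Fin 17) → Matrix (Fin 2) (Fin 17) ℂ,
    (∑ k, (H k)ᴴ * H k = 1) ∧
      ∀ x : ℂ × Matrix (Fin 2) (Fin 2) ℂ,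
        (Phi x)ᵀ = ∑ k, (H k)ᴴ * (io x).submatrix ![10, 8] ![10, 8] * H k := by
  obtain ⟨N, hN⟩ := exists_N Sqᵀ LR DR DR_nonneg 100 certR
  let s : ℂ := ((Real.sqrt (1/2) : ℝ) : ℂ)
  have hs : s * star s = 1/2 := by
    simp only [s, RCLike.star_def, Complex.conj_ofReal]
    rw [← Complex.ofReal_mul, Real.mul_self_sqrt (by norm_num)]
    push_cast
    rfl
  have hCD : (-(1/10 : ℂ) • Scᵀ)ᴴ * (-(1/10 : ℂ) • Scᵀ) + ((1/10 : ℂ) • N)ᴴ * ((1/10 : ℂ) • N)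
      = 1 := by
    have h1 : (-(1/10 : ℂ) • Scᵀ)ᴴ * (-(1/10 : ℂ) • Scᵀ) + ((1/10 : ℂ) • N)ᴴ * ((1/10 : ℂ) • N) =
        (1/100 : ℂ) • ((rc Sqᵀ)ᴴ * rc Sqᵀ + Nᴴ * N) := by
      simp only [Matrix.conjTranspose_smul, Matrix.smul_mul, Matrix.mul_smul, smul_smul, smul_add,
        Sc, rc_transpose]
      congr 2 <;> norm_num
    rw [h1, hN, smul_smul]
    norm_num
  obtain ⟨H, hH⟩ := kraus_pair s hs _ _ hCD
  refine ⟨H, ?_, fun x => ?_⟩
  · have h := hH 1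
    simp only [Matrix.mul_one] at h
    rw [h]
    simp only [Matrix.one_apply_eq, ne_eq, zero_ne_one, one_ne_zero, not_false_eq_true,
        Matrix.one_apply_ne]
    module
  · rw [hH, io_w, Phi]
    simp only [Matrix.of_apply, Matrix.cons_val_zero, Matrix.cons_val_one, Matrix.cons_val',
      Matrix.cons_val_fin_one, Matrix.transpose_sub, Matrix.transpose_smul, Matrix.transpose_one]
    module

end H70CR
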