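import Mathlib

/-! A smooth convex function vanishing on the negative half line, and a Schwarz lemma for
complex valued harmonic maps of the disc. -/

set_option autoImplicit false

open Filter Topology Set

namespace Pool.Agent.H70R3.HD

/-- `η(s) = ∫_0^s expNegInvGlue` -/
noncomputable def eta (s : ℝ) : ℝ := ∫ t in (0 : ℝ)..s, expNegInvGlue t

theorem glue_cont : Continuous expNegInvGlue :=
  (expNegInvGlue.contDiff (n := 0)).continuous

theorem eta_hasDerivAt (s : ℝ) : HasDerivAt eta (expNegInvGlue s) s :=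
  intervalIntegral.integral_hasDerivAt_right (glue_cont.intervalIntegrable _ _)
    (glue_cont.stronglyMeasurableAtFilter _ _) glue_cont.continuousAt

theorem eta_deriv : deriv eta = expNegInvGlue := funext fun s => (eta_hasDerivAt s).deriv

theorem eta_differentiable : Differentiable ℝ eta := fun s => (eta_hasDerivAt s).differentiableAt

theorem eta_contDiff : ContDiff ℝ ((⊤ : ℕ∞) : WithTop ℕ∞) eta := by
  rw [contDiff_infty_iff_deriv]
  exact ⟨eta_differentiable, by rw [eta_deriv]; exact expNegInvGlue.contDiff⟩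

theorem eta_mono : Monotone eta := by
  refine monotone_of_deriv_nonneg eta_differentiable ?_
  intro s
  rw [eta_deriv]
  exact expNegInvGlue.nonneg s

theorem eta_convex : ConvexOn ℝ univ eta := by
  refine Monotone.convexOn_univ_of_deriv eta_differentiable ?_
  rw [eta_deriv]
  exact expNegInvGlue.monotone

theorem eta_zero : eta 0 = 0 := by simp [eta]

theorem eta_neg {s : ℝ} (hs : s ≤ 0) : eta s = 0 := by
  rw [eta, intervalIntegral.integral_symm, neg_eq_zero]
  have : ∫ t in s..0, expNegInvGlue t = ∫ t in s..0, (0 : ℝ) := by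
    refine intervalIntegral.integral_congr ?_
    intro t ht
    rw [uIcc_of_le hs] at ht
    exact expNegInvGlue.zero_of_nonpos ht.2
  rw [this]
  simp

theorem eta_nonneg (s : ℝ) : 0 ≤ eta s := by
  rcases le_total s 0 with h | h
  · rw [eta_neg h]
  · rw [← eta_zero]; exact eta_mono h

theorem eta_one_pos : 0 < eta 1 := by
  refine intervalIntegral.intervalIntegral_pos_of_pos_on (glue_cont.intervalIntegrable _ _) ?_
    zero_lt_one
  intro t ht
  exact expNegInvGlue.pos_of_pos ht.1

theorem eta_grow {s : ℝ} (hs : 1 ≤ s) : s * eta 1 ≤ eta s := by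
  have hs0 : 0 < s := by linarith
  have h := eta_convex.2 (mem_univ s) (mem_univ (0 : ℝ)) (show 0 ≤ s⁻¹ by positivity)
    (show 0 ≤ 1 - s⁻¹ by have := inv_le_one_of_one_le₀ hs; linarith) (by ring)
  simp only [smul_eq_mul, eta_zero, mul_zero, add_zero] at h
  rw [inv_mul_cancel₀ hs0.ne'] at h
  calc s * eta 1 ≤ s * (s⁻¹ * eta s) := mul_le_mul_of_nonneg_left h hs0.le
    _ = eta s := by rw [← mul_assoc, mul_inv_cancel₀ hs0.ne', one_mul]

/-- harmonicity in the sense of iterated partial derivatives -/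
theorem harmonicOnNhd_of {a : ℂ → ℝ} (ha : ContDiffOn ℝ 2 a (Metric.ball (0 : ℂ) 1))
    (hl : ∀ z ∈ Metric.ball (0 : ℂ) 1,
      fderiv ℝ (fun w => fderiv ℝ a w (1 : ℂ)) z (1 : ℂ) +
        fderiv ℝ (fun w => fderiv ℝ a w Complex.I) z Complex.I = 0) :
    InnerProductSpace.HarmonicOnNhd a (Metric.ball (0 : ℂ) 1) := by
  intro z hz
  have hat : ∀ w ∈ Metric.ball (0 : ℂ) 1, ContDiffAt ℝ 2 a w := fun w hw =>
    ha.contDiffAt (Metric.isOpen_ball.mem_nhds hw)
  refine ⟨hat z hz, ?_⟩
  filter_upwards [Metric.isOpen_ball.mem_nhds hz] with w hw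
  rw [InnerProductSpace.laplacian_eq_iteratedFDeriv_complexPlane]
  have h1 := hl w hw
  have hd : DifferentiableAt ℝ (fderiv ℝ a) w := by
    have h2 : ContDiffAt ℝ 1 (fderiv ℝ a) w := (hat w hw).fderiv_right (by norm_num)
    exact h2.differentiableAt (by norm_num)
  have e : ∀ v : ℂ, fderiv ℝ (fun w => fderiv ℝ a w v) w v = iteratedFDeriv ℝ 2 a w ![v, v] := by
    intro v
    rw [iteratedFDeriv_two_apply]
    have : fderiv ℝ (fun w => fderiv ℝ a w v) w = (fderiv ℝ (fderiv ℝ a) w).flip v := by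
      rw [fderiv_clm_apply hd (differentiableAt_const v)]
      ext u
      simp
    rw [this]
    simp
  rw [e, e] at h1
  exact h1

/-- Schwarz lemma: a harmonic map `a + i b` of the disc into itself, fixing `0`, with conformal
differential of size `s` at `0`, has `s ≤ 1`. -/
theorem schwarz (a b : ℂ → ℝ) (s : ℝ) (hs : 0 < s)
    (ha : InnerProductSpace.HarmonicOnNhd a (Metric.ball (0 : ℂ) 1))
    (hb : InnerProductSpace.HarmonicOnNhd b (Metric.ball (0 : ℂ) 1))
    (hab : ∀ z ∈ Metric.ball (0 : ℂ) 1, a z ^ 2 + b z ^ 2 ≤ 1)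
    (ha0 : a 0 = 0) (hb0 : b 0 = 0)
    (h1 : fderiv ℝ a 0 1 = s) (h2 : fderiv ℝ a 0 Complex.I = 0)
    (h3 : fderiv ℝ b 0 1 = 0) (h4 : fderiv ℝ b 0 Complex.I = s) : s ≤ 1 := by
  obtain ⟨F, hF, hFa⟩ := ha.exists_analyticOnNhd_ball_re_eq
  obtain ⟨G, hG, hGb⟩ := hb.exists_analyticOnNhd_ball_re_eq
  have h0 : (0 : ℂ) ∈ Metric.ball (0 : ℂ) 1 := by simp
  have hder : ∀ (A : ℂ → ℝ) (P : ℂ → ℂ), AnalyticOnNhd ℂ P (Metric.ball (0 : ℂ) 1) →
      (Metric.ball (0 : ℂ) 1).EqOn (fun z => (P z).re) A →
      ∀ v : ℂ, fderiv ℝ A 0 v = (v * deriv P 0).re := by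
    intro A P hP hPA v
    have hd : HasDerivAt P (deriv P 0) 0 := (hP 0 h0).differentiableAt.hasDerivAt
    have e1 : A =ᶠ[𝓝 0] fun z => (P z).re := by
      filter_upwards [Metric.isOpen_ball.mem_nhds h0] with z hz
      exact (hPA hz).symm
    rw [e1.fderiv_eq]
    have e2 := (Complex.reCLM.hasFDerivAt (x := P 0)).comp (0 : ℂ) (hd.hasFDerivAt.restrictScalars ℝ)
    have e3 : fderiv ℝ (fun z => (P z).re) 0 = _ := e2.fderiv
    rw [e3]
    simp
  have hF1 := hder a F hF hFa
  have hG1 := hder b G hG hGb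
  have f1 : (deriv F 0).re = s := by rw [← h1, hF1, one_mul]
  have f2 : (deriv F 0).im = 0 := by
    have := hF1 Complex.I
    rw [h2] at this
    simp at this
    exact this
  have g1 : (deriv G 0).re = 0 := by rw [← h3, hG1, one_mul]
  have g2 : (deriv G 0).im = -s := by
    have := hG1 Complex.I
    rw [h4] at this
    simp at this
    linarith
  have hF0 : (F 0).re = 0 := by have := hFa h0; simpa [ha0] using this
  have hG0 : (G 0).re = 0 := by have := hGb h0; simpa [hb0] using this
  -- normalised holomorphic functions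
  let P : ℂ → ℂ := fun z => ((F z - F 0) + Complex.I * (G z - G 0)) / 2
  let Q : ℂ → ℂ := fun z => ((F z - F 0) - Complex.I * (G z - G 0)) / 2
  have hFd : DifferentiableOn ℂ F (Metric.ball (0 : ℂ) 1) := hF.differentiableOn
  have hGd : DifferentiableOn ℂ G (Metric.ball (0 : ℂ) 1) := hG.differentiableOn
  have hPd : DifferentiableOn ℂ P (Metric.ball (0 : ℂ) 1) :=
    ((hFd.sub_const _).add ((hGd.sub_const _).const_mul _)).div_const _
  have hQd : DifferentiableOn ℂ Q (Metric.ball (0 : ℂ) 1) :=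
    ((hFd.sub_const _).sub ((hGd.sub_const _).const_mul _)).div_const _
  have hP0 : P 0 = 0 := by simp [P]
  have hPder : deriv P 0 = s := by
    have hFh : HasDerivAt F (deriv F 0) 0 := (hF 0 h0).differentiableAt.hasDerivAt
    have hGh : HasDerivAt G (deriv G 0) 0 := (hG 0 h0).differentiableAt.hasDerivAt
    have : HasDerivAt P ((deriv F 0 + Complex.I * deriv G 0) / 2) 0 :=
      ((hFh.sub_const _).add ((hGh.sub_const _).const_mul _)).div_const _
    rw [this.deriv]
    apply Complex.ext
    · simp [f1, g2]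
    · simp [f2, g1]
  have hPQ : ∀ z ∈ Metric.ball (0 : ℂ) 1,
      P z + (starRingEnd ℂ) (Q z) = (a z : ℂ) + Complex.I * (b z : ℂ) := by
    intro z hz
    have e1 : (F z).re = a z := hFa hz
    have e2 : (G z).re = b z := hGb hz
    apply Complex.ext
    · rw [Complex.add_re, Complex.conj_re]
      simp [P, Q, e1, hF0]; ring
    · rw [Complex.add_im, Complex.conj_im]
      simp [P, Q, e2, hG0]; ring
  -- the inequality on the circle of radius `r`
  have key : ∀ r : ℝ, 0 < r → r < 1 → r * s ≤ 1 := by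
    intro r hr0 hr1
    let U : Set ℂ := Metric.ball (0 : ℂ) r
    let Φ : ℂ → ℂ := fun z => Complex.exp (((r ^ 2 : ℝ) : ℂ) * dslope P 0 z + z * Q z)
    have hsub : closure U ⊆ Metric.ball (0 : ℂ) 1 := by
      rw [closure_ball _ hr0.ne']
      exact Metric.closedBall_subset_ball hr1
    have hslope : DifferentiableOn ℂ (dslope P 0) (Metric.ball (0 : ℂ) 1) :=
      (Complex.differentiableOn_dslope (Metric.isOpen_ball.mem_nhds h0)).2 hPd
    have hΦd : DifferentiableOn ℂ Φ (Metric.ball (0 : ℂ) 1) :=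
      ((hslope.const_mul _).add (differentiableOn_id.mul hQd)).cexp
    have hΦ : DiffContOnCl ℂ Φ U := ⟨hΦd.mono (subset_closure.trans hsub), (hΦd.mono hsub).continuousOn⟩
    have hbound : ∀ z ∈ frontier U, ‖Φ z‖ ≤ Real.exp r := by
      intro z hz
      rw [frontier_ball _ hr0.ne', mem_sphere_zero_iff_norm] at hz
      have hz1 : z ∈ Metric.ball (0 : ℂ) 1 := by rw [mem_ball_zero_iff, hz]; exact hr1
      have hz0 : z ≠ 0 := by rintro rfl; simp at hz; linarith
      rw [Complex.norm_exp]
      apply Real.exp_le_exp.2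
      have e1 : dslope P 0 z = P z / z := by
        rw [dslope_of_ne _ hz0, slope_def_field, hP0]
        simp
      have e2 : ((r ^ 2 : ℝ) : ℂ) = z * (starRingEnd ℂ) z := by
        rw [Complex.mul_conj, Complex.normSq_eq_norm_sq, hz]
      have e3 : (((r ^ 2 : ℝ) : ℂ) * dslope P 0 z + z * Q z).re
          = ((starRingEnd ℂ) z * ((a z : ℂ) + Complex.I * (b z : ℂ))).re := by
        rw [e1, e2, ← hPQ z hz1]
        have e4 : z * (starRingEnd ℂ) z * (P z / z) = (starRingEnd ℂ) z * P z := by
          field_simp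
        rw [e4, mul_add, Complex.add_re, Complex.add_re]
        congr 1
        rw [← map_mul, Complex.conj_re]
      rw [e3]
      refine (Complex.re_le_norm _).trans ?_
      rw [norm_mul, Complex.norm_conj, hz]
      have e5 : ‖(a z : ℂ) + Complex.I * (b z : ℂ)‖ ≤ 1 := by
        have e6 : ‖(a z : ℂ) + Complex.I * (b z : ℂ)‖ ^ 2 = a z ^ 2 + b z ^ 2 := by
          rw [← Complex.normSq_eq_norm_sq, Complex.normSq_apply]
          simp
          ring
        have e7 := hab z hz1
        rw [← e6] at e7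
        nlinarith [norm_nonneg ((a z : ℂ) + Complex.I * (b z : ℂ))]
      nlinarith
    have h0U : (0 : ℂ) ∈ closure U := subset_closure (by simp [U, hr0])
    have hmax := Complex.norm_le_of_forall_mem_frontier_norm_le Metric.isBounded_ball hΦ hbound h0U
    have e8 : ‖Φ 0‖ = Real.exp (r ^ 2 * s) := by
      simp only [Φ]
      rw [Complex.norm_exp, dslope_same, hPder, zero_mul, add_zero, ← Complex.ofReal_mul,
        Complex.ofReal_re]
    rw [e8] at hmax
    have := Real.exp_le_exp.1 hmax
    nlinarith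
  by_contra hcon
  push Not at hcon
  have hs1 : 0 < s := hs
  have h5 := key ((1 + s⁻¹) / 2) (by positivity) (by
    have : s⁻¹ < 1 := inv_lt_one_of_one_lt₀ hcon
    linarith)
  have : (1 + s⁻¹) / 2 * s = (s + 1) / 2 := by field_simp
  rw [this] at h5
  linarith

end Pool.Agent.H70R3.HD
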