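import Pool.Agent.H70R3.HD1

/-! The domain `|z₁|² + η(|z₂|² - 1/4) < 1` in `ℝ⁴` and the holomorphic discs `(z, c z²)`. -/

set_option autoImplicit false

open Filter Topology Set

namespace Pool.Agent.H70R3.HD

abbrev E4 : Type := EuclideanSpace ℝ (Fin 4)

theorem coord_contDiff (i : Fin 4) {n : WithTop ℕ∞} : ContDiff ℝ n (fun x : E4 => x i) :=
  (EuclideanSpace.proj (𝕜 := ℝ) i : E4 →L[ℝ] ℝ).contDiff

noncomputable def rho (x : E4) : ℝ := x 0 ^ 2 + x 1 ^ 2 + eta (x 2 ^ 2 + x 3 ^ 2 - 1 / 4) - 1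

theorem rho_contDiff : ContDiff ℝ ((⊤ : ℕ∞) : WithTop ℕ∞) rho := by
  have h0 := coord_contDiff 0 (n := ((⊤ : ℕ∞) : WithTop ℕ∞))
  have h1 := coord_contDiff 1 (n := ((⊤ : ℕ∞) : WithTop ℕ∞))
  have h2 := coord_contDiff 2 (n := ((⊤ : ℕ∞) : WithTop ℕ∞))
  have h3 := coord_contDiff 3 (n := ((⊤ : ℕ∞) : WithTop ℕ∞))
  exact (((h0.pow 2).add (h1.pow 2)).add
    (eta_contDiff.comp (((h2.pow 2).add (h3.pow 2)).sub contDiff_const))).sub contDiff_const

theorem sq_convex {a b x y : ℝ} (ha : 0 ≤ a) (hb : 0 ≤ b) (hab : a + b = 1) :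
    (a * x + b * y) ^ 2 ≤ a * x ^ 2 + b * y ^ 2 := by
  have hb' : b = 1 - a := by linarith
  subst hb'
  nlinarith [mul_nonneg (mul_nonneg ha hb) (sq_nonneg (x - y))]

theorem rho_convex : ConvexOn ℝ univ rho := by
  refine ⟨convex_univ, ?_⟩
  intro x _ y _ a b ha hb hab
  have e : ∀ i : Fin 4, (a • x + b • y) i = a * x i + b * y i := fun i => by simp
  simp only [rho, e, smul_eq_mul]
  have h0 := sq_convex (x := x 0) (y := y 0) ha hb hab
  have h1 := sq_convex (x := x 1) (y := y 1) ha hb hab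
  have h2 := sq_convex (x := x 2) (y := y 2) ha hb hab
  have h3 := sq_convex (x := x 3) (y := y 3) ha hb hab
  have h4 : eta ((a * x 2 + b * y 2) ^ 2 + (a * x 3 + b * y 3) ^ 2 - 1 / 4)
      ≤ eta (a * (x 2 ^ 2 + x 3 ^ 2 - 1 / 4) + b * (y 2 ^ 2 + y 3 ^ 2 - 1 / 4)) := by
    apply eta_mono
    nlinarith
  have h5 := eta_convex.2 (mem_univ (x 2 ^ 2 + x 3 ^ 2 - 1 / 4))
    (mem_univ (y 2 ^ 2 + y 3 ^ 2 - 1 / 4)) ha hb hab
  simp only [smul_eq_mul] at h5
  nlinarith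

/-- the domain -/
def Om : Set E4 := {x | x ∈ (univ : Set E4) ∧ rho x < 0}

theorem Om_open : IsOpen Om := by
  have : Om = {x | rho x < 0} := by ext x; simp [Om]
  rw [this]
  exact isOpen_lt rho_contDiff.continuous continuous_const

theorem Om_convex : Convex ℝ Om := rho_convex.convex_lt 0

theorem Om_bounded : Bornology.IsBounded Om := by
  refine (Metric.isBounded_closedBall (x := (0 : E4)) (r := 3 + 1 / eta 1)).subset ?_
  intro x hx
  have hx' : rho x < 0 := hx.2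
  have hpos := eta_one_pos
  rw [mem_closedBall_zero_iff]
  have hn : ‖x‖ ^ 2 = x 0 ^ 2 + x 1 ^ 2 + x 2 ^ 2 + x 3 ^ 2 := by
    rw [EuclideanSpace.norm_sq_eq, Fin.sum_univ_four]
    simp
  have h1 : x 2 ^ 2 + x 3 ^ 2 - 1 / 4 ≤ 1 + 1 / eta 1 := by
    rcases le_total (x 2 ^ 2 + x 3 ^ 2 - 1 / 4) 1 with h | h
    · have : 0 < 1 / eta 1 := by positivity
      linarith
    · have h2 := eta_grow h
      have h3 : eta (x 2 ^ 2 + x 3 ^ 2 - 1 / 4) < 1 := by
        unfold rho at hx'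
        nlinarith [sq_nonneg (x 0), sq_nonneg (x 1)]
      have h4 : x 2 ^ 2 + x 3 ^ 2 - 1 / 4 ≤ 1 / eta 1 := by
        rw [le_div_iff₀ hpos]; linarith
      linarith
  have h5 : x 0 ^ 2 + x 1 ^ 2 < 1 := by
    have := eta_nonneg (x 2 ^ 2 + x 3 ^ 2 - 1 / 4)
    unfold rho at hx'
    linarith
  have h6 : 0 < 1 / eta 1 := by positivity
  refine le_of_sq_le_sq ?_ (by positivity)
  rw [hn]
  nlinarith

theorem rho_fderiv_ne {x : E4} (hx : x ∈ frontier Om) : fderiv ℝ rho x ≠ 0 := by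
  have hx0 : rho x = 0 := by
    have : Om = {x | rho x < 0} := by ext x; simp [Om]
    rw [this] at hx
    exact frontier_lt_subset_eq rho_contDiff.continuous continuous_const hx
  intro hcon
  have hd : HasFDerivAt rho (0 : E4 →L[ℝ] ℝ) x := by
    rw [← hcon]
    exact (rho_contDiff.differentiable (by simp)).differentiableAt.hasFDerivAt
  have hline : HasDerivAt (fun t : ℝ => (1 - t) • x) (-x) 0 := by
    have := ((hasDerivAt_id (0 : ℝ)).const_sub 1).smul_const x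
    simpa using this
  have hd' : HasFDerivAt rho (0 : E4 →L[ℝ] ℝ) ((fun t : ℝ => (1 - t) • x) 0) := by simpa using hd
  have hcomp := hd'.comp_hasDerivAt (0 : ℝ) hline
  simp only [zero_apply] at hcomp
  have hrho0 : rho 0 = -1 := by
    simp [rho]
    exact eta_neg (by norm_num)
  have hle : ∀ t : ℝ, 0 < t → t < 1 → rho ((1 - t) • x) ≤ -t := by
    intro t ht0 ht1
    have := rho_convex.2 (mem_univ x) (mem_univ (0 : E4)) (show 0 ≤ 1 - t by linarith) ht0.le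
      (by ring)
    simp only [smul_zero, add_zero, smul_eq_mul, hx0, hrho0] at this
    linarith
  have hslope := hasDerivAt_iff_tendsto_slope_zero.1 hcomp
  have hr : Tendsto (fun t : ℝ => t⁻¹ • ((rho ∘ fun t : ℝ => (1 - t) • x) (0 + t)
      - (rho ∘ fun t : ℝ => (1 - t) • x) 0)) (𝓝[>] 0) (𝓝 0) :=
    hslope.mono_left (nhdsWithin_mono _ (fun t ht => ne_of_gt ht))
  have hev : ∀ᶠ t : ℝ in 𝓝[>] 0, t⁻¹ • ((rho ∘ fun t : ℝ => (1 - t) • x) (0 + t)
      - (rho ∘ fun t : ℝ => (1 - t) • x) 0) ≤ -1 := by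
    filter_upwards [Ioo_mem_nhdsGT (show (0 : ℝ) < 1 by norm_num)] with t ht
    have h1 := hle t ht.1 ht.2
    simp only [Function.comp_apply, zero_add, sub_zero, one_smul, hx0, smul_eq_mul]
    calc t⁻¹ * rho ((1 - t) • x) ≤ t⁻¹ * (-t) :=
          mul_le_mul_of_nonneg_left h1 (inv_nonneg.2 ht.1.le)
      _ = -1 := by rw [mul_neg, inv_mul_cancel₀ ht.1.ne']
  have := le_of_tendsto hr hev
  linarith

/-- the discs -/
noncomputable def disc (c : ℝ) (z : ℂ) : E4 :=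
  !₂[z.re, z.im, c * (z.re ^ 2 - z.im ^ 2), c * (2 * (z.re * z.im))]

theorem disc_eq (c : ℝ) : disc c = fun z : ℂ => z.re • (!₂[1, 0, 0, 0] : E4)
    + z.im • (!₂[0, 1, 0, 0] : E4) + (c * (z.re ^ 2 - z.im ^ 2)) • (!₂[0, 0, 1, 0] : E4)
    + (c * (2 * (z.re * z.im))) • (!₂[0, 0, 0, 1] : E4) := by
  funext z
  ext i
  fin_cases i <;> simp [disc]

theorem disc_contDiff (c : ℝ) {n : WithTop ℕ∞} : ContDiff ℝ n (disc c) := by
  rw [disc_eq]
  have hre : ContDiff ℝ n (fun z : ℂ => z.re) := Complex.reCLM.contDiff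
  have him : ContDiff ℝ n (fun z : ℂ => z.im) := Complex.imCLM.contDiff
  exact (((hre.smul contDiff_const).add (him.smul contDiff_const)).add
    ((contDiff_const.mul ((hre.pow 2).sub (him.pow 2))).smul contDiff_const)).add
    ((contDiff_const.mul (contDiff_const.mul (hre.mul him))).smul contDiff_const)

theorem disc_fderiv (c : ℝ) (z v : ℂ) : fderiv ℝ (disc c) z v =
    !₂[v.re, v.im, c * (2 * (z.re * v.re) - 2 * (z.im * v.im)),
      c * (2 * (z.re * v.im + z.im * v.re))] := by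
  have hre : HasFDerivAt (fun z : ℂ => z.re) Complex.reCLM z := Complex.reCLM.hasFDerivAt
  have him : HasFDerivAt (fun z : ℂ => z.im) Complex.imCLM z := Complex.imCLM.hasFDerivAt
  have h := (((hre.smul_const (!₂[1, 0, 0, 0] : E4)).add (him.smul_const (!₂[0, 1, 0, 0] : E4))).add
    ((((hre.pow 2).sub (him.pow 2)).const_mul c).smul_const (!₂[0, 0, 1, 0] : E4))).add
    ((((hre.mul him).const_mul 2).const_mul c).smul_const (!₂[0, 0, 0, 1] : E4))
  rw [disc_eq]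
  rw [show fderiv ℝ (fun z : ℂ => z.re • (!₂[1, 0, 0, 0] : E4)
    + z.im • (!₂[0, 1, 0, 0] : E4) + (c * (z.re ^ 2 - z.im ^ 2)) • (!₂[0, 0, 1, 0] : E4)
    + (c * (2 * (z.re * z.im))) • (!₂[0, 0, 0, 1] : E4)) z = _ from h.fderiv]
  ext i
  fin_cases i <;> simp
  all_goals first | (left; ring) | ring

theorem disc_fderiv_one (c : ℝ) (z : ℂ) : fderiv ℝ (disc c) z 1 =
    !₂[1, 0, c * (2 * z.re), c * (2 * z.im)] := by
  rw [disc_fderiv]
  ext i
  fin_cases i <;> simp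

theorem disc_fderiv_I (c : ℝ) (z : ℂ) : fderiv ℝ (disc c) z Complex.I =
    !₂[0, 1, c * (-2 * z.im), c * (2 * z.re)] := by
  rw [disc_fderiv]
  ext i
  fin_cases i <;> simp

theorem disc_conf (c : ℝ) (z : ℂ) :
    ‖fderiv ℝ (disc c) z (1 : ℂ)‖ = ‖fderiv ℝ (disc c) z Complex.I‖ ∧
      inner ℝ (fderiv ℝ (disc c) z (1 : ℂ)) (fderiv ℝ (disc c) z Complex.I) = 0 := by
  rw [disc_fderiv_one, disc_fderiv_I]
  constructor
  · rw [EuclideanSpace.norm_eq, EuclideanSpace.norm_eq]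
    congr 1
    simp [Fin.sum_univ_four]
    ring
  · simp [PiLp.inner_apply, Fin.sum_univ_four]
    ring

theorem disc_harm (c : ℝ) (z : ℂ) :
    fderiv ℝ (fun w => fderiv ℝ (disc c) w (1 : ℂ)) z (1 : ℂ) +
      fderiv ℝ (fun w => fderiv ℝ (disc c) w Complex.I) z Complex.I = 0 := by
  have hre : HasFDerivAt (fun z : ℂ => z.re) Complex.reCLM z := Complex.reCLM.hasFDerivAt
  have him : HasFDerivAt (fun z : ℂ => z.im) Complex.imCLM z := Complex.imCLM.hasFDerivAt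
  have e1 : (fun w => fderiv ℝ (disc c) w (1 : ℂ)) = fun w : ℂ => (!₂[1, 0, 0, 0] : E4)
      + (c * (2 * w.re)) • (!₂[0, 0, 1, 0] : E4) + (c * (2 * w.im)) • (!₂[0, 0, 0, 1] : E4) := by
    funext w
    rw [disc_fderiv_one]
    ext i
    fin_cases i <;> simp
  have e2 : (fun w => fderiv ℝ (disc c) w Complex.I) = fun w : ℂ => (!₂[0, 1, 0, 0] : E4)
      + (c * (-2 * w.im)) • (!₂[0, 0, 1, 0] : E4) + (c * (2 * w.re)) • (!₂[0, 0, 0, 1] : E4) := by
    funext w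
    rw [disc_fderiv_I]
    ext i
    fin_cases i <;> simp
  have h1 := ((((hre.const_mul 2).const_mul c).smul_const (!₂[0, 0, 1, 0] : E4)).const_add
    (!₂[1, 0, 0, 0] : E4)).add (((him.const_mul 2).const_mul c).smul_const (!₂[0, 0, 0, 1] : E4))
  have h2 := ((((him.const_mul (-2)).const_mul c).smul_const (!₂[0, 0, 1, 0] : E4)).const_add
    (!₂[0, 1, 0, 0] : E4)).add (((hre.const_mul 2).const_mul c).smul_const (!₂[0, 0, 0, 1] : E4))
  rw [e1, e2]
  rw [show fderiv ℝ (fun w : ℂ => (!₂[1, 0, 0, 0] : E4)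
      + (c * (2 * w.re)) • (!₂[0, 0, 1, 0] : E4) + (c * (2 * w.im)) • (!₂[0, 0, 0, 1] : E4)) z = _
      from h1.fderiv,
    show fderiv ℝ (fun w : ℂ => (!₂[0, 1, 0, 0] : E4)
      + (c * (-2 * w.im)) • (!₂[0, 0, 1, 0] : E4) + (c * (2 * w.re)) • (!₂[0, 0, 0, 1] : E4)) z = _
      from h2.fderiv]
  ext i
  fin_cases i <;> simp

theorem disc_mem {c : ℝ} (hc : c ^ 2 ≤ 1 / 16) {z : ℂ} (hz : z ∈ Metric.ball (0 : ℂ) 1) :
    disc c z ∈ Om := by
  refine ⟨mem_univ _, ?_⟩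
  rw [mem_ball_zero_iff] at hz
  have hz2 : z.re ^ 2 + z.im ^ 2 < 1 := by
    have h1 : z.re ^ 2 + z.im ^ 2 = ‖z‖ ^ 2 := by
      rw [← Complex.normSq_eq_norm_sq, Complex.normSq_apply]; ring
    rw [h1]
    nlinarith [norm_nonneg z]
  have hs : (disc c z) 2 ^ 2 + (disc c z) 3 ^ 2 - 1 / 4 ≤ 0 := by
    have e : (disc c z) 2 ^ 2 + (disc c z) 3 ^ 2 = c ^ 2 * (z.re ^ 2 + z.im ^ 2) ^ 2 := by
      simp [disc]; ring
    rw [e]
    have h2 : (z.re ^ 2 + z.im ^ 2) ^ 2 ≤ 1 := by nlinarith [sq_nonneg z.re, sq_nonneg z.im]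
    nlinarith [sq_nonneg c]
  rw [rho, eta_neg hs]
  have e0 : (disc c z) 0 = z.re := rfl
  have e1 : (disc c z) 1 = z.im := rfl
  rw [e0, e1]
  linarith

end Pool.Agent.H70R3.HD
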