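import Pool.Agent.H70R3.HD2

set_option autoImplicit false

open Filter Topology Set

namespace Pool.Agent.H70R3.HD

theorem extremal (g : ℂ → EuclideanSpace ℝ (Fin 4)) (s : ℝ) (hs : 0 < s)
    (hg : ContDiffOn ℝ 2 g (Metric.ball (0 : ℂ) 1))
    (hgO : ∀ z ∈ Metric.ball (0 : ℂ) 1, g z ∈ Om)
    (hgh : ∀ z ∈ Metric.ball (0 : ℂ) 1,
      fderiv ℝ (fun w => fderiv ℝ g w (1 : ℂ)) z (1 : ℂ) +
        fderiv ℝ (fun w => fderiv ℝ g w Complex.I) z Complex.I = 0)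
    (hg0 : g 0 = 0) (hg1 : fderiv ℝ g 0 (1 : ℂ) = s • !₂[1, 0, 0, 0])
    (hgI : fderiv ℝ g 0 Complex.I = s • !₂[0, 1, 0, 0]) : s ≤ 1 := by
  have h00 : (0 : ℂ) ∈ Metric.ball (0 : ℂ) 1 := by simp
  have hat : ∀ w ∈ Metric.ball (0 : ℂ) 1, ContDiffAt ℝ 2 g w := fun w hw =>
    hg.contDiffAt (Metric.isOpen_ball.mem_nhds hw)
  have hgd : ∀ w ∈ Metric.ball (0 : ℂ) 1, DifferentiableAt ℝ g w := fun w hw =>
    (hat w hw).differentiableAt (by norm_num)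
  have hgdd : ∀ w ∈ Metric.ball (0 : ℂ) 1, ∀ v : ℂ,
      DifferentiableAt ℝ (fun w => fderiv ℝ g w v) w := by
    intro w hw v
    have h2 : ContDiffAt ℝ 1 (fderiv ℝ g) w := (hat w hw).fderiv_right (by norm_num)
    exact (h2.differentiableAt (by norm_num)).clm_apply (differentiableAt_const v)
  have hfd : ∀ (i : Fin 4), ∀ w ∈ Metric.ball (0 : ℂ) 1, ∀ v : ℂ,
      fderiv ℝ (fun z => g z i) w v = (fderiv ℝ g w v) i := by
    intro i w hw v
    have h := ((EuclideanSpace.proj (𝕜 := ℝ) i : EuclideanSpace ℝ (Fin 4) →L[ℝ] ℝ).hasFDerivAt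
      (x := g w)).comp w (hgd w hw).hasFDerivAt
    have h2 : fderiv ℝ (fun z => g z i) w = _ := h.fderiv
    rw [h2]
    rfl
  have hfdd : ∀ (i : Fin 4), ∀ w ∈ Metric.ball (0 : ℂ) 1, ∀ v : ℂ,
      fderiv ℝ (fun z => fderiv ℝ (fun z => g z i) z v) w v
        = (fderiv ℝ (fun z => fderiv ℝ g z v) w v) i := by
    intro i w hw v
    have e : (fun z => fderiv ℝ (fun z => g z i) z v) =ᶠ[𝓝 w] fun z => (fderiv ℝ g z v) i := by
      filter_upwards [Metric.isOpen_ball.mem_nhds hw] with z hz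
      exact hfd i z hz v
    rw [e.fderiv_eq]
    have h := ((EuclideanSpace.proj (𝕜 := ℝ) i : EuclideanSpace ℝ (Fin 4) →L[ℝ] ℝ).hasFDerivAt
      (x := fderiv ℝ g w v)).comp w (hgdd w hw v).hasFDerivAt
    have h2 : fderiv ℝ (fun z => (fderiv ℝ g z v) i) w = _ := h.fderiv
    rw [h2]
    rfl
  have hharm : ∀ i : Fin 4, InnerProductSpace.HarmonicOnNhd (fun z => g z i)
      (Metric.ball (0 : ℂ) 1) := by
    intro i
    refine harmonicOnNhd_of ((coord_contDiff i).comp_contDiffOn hg) ?_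
    intro z hz
    rw [hfdd i z hz, hfdd i z hz]
    have := congrArg (fun x : EuclideanSpace ℝ (Fin 4) => x i) (hgh z hz)
    simpa using this
  refine schwarz (fun z => g z 0) (fun z => g z 1) s hs (hharm 0) (hharm 1) ?_ ?_ ?_ ?_ ?_ ?_ ?_
  · intro z hz
    have h := (hgO z hz).2
    have h2 := eta_nonneg ((g z) 2 ^ 2 + (g z) 3 ^ 2 - 1 / 4)
    unfold rho at h
    show (g z) 0 ^ 2 + (g z) 1 ^ 2 ≤ 1
    linarith
  · simp [hg0]
  · simp [hg0]
  · rw [hfd 0 0 h00, hg1]; simp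
  · rw [hfd 0 0 h00, hgI]; simp
  · rw [hfd 1 0 h00, hg1]; simp
  · rw [hfd 1 0 h00, hgI]; simp

end Pool.Agent.H70R3.HD
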