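import Mathlib

set_option autoImplicit false
open scoped InnerProductSpace ComplexConjugate
open Filter Topology

namespace Pool.Agent.H70R3.Reflex

/-- The Hilbert space `ℓ²(ℕ)`. -/
abbrev E : Type := lp (fun _ : ℕ => ℂ) 2

/-- The standard basis vectors. -/
noncomputable def b (k : ℕ) : E := lp.single 2 k (1 : ℂ)

lemma b_apply (k j : ℕ) : (b k : E) j = if j = k then 1 else 0 := by
  simp only [b, lp.coeFn_single, Pi.single_apply]

lemma norm_b (k : ℕ) : ‖b k‖ = 1 := by
  simp [b, lp.norm_single]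

lemma inner_b (k : ℕ) (x : E) : ⟪b k, x⟫_ℂ = x k := by
  simp [b, lp.inner_single_left]

/-- The rank one operator `x ↦ ⟪u, x⟫ v`. -/
noncomputable def rk (u v : E) : E →L[ℂ] E := (innerSL ℂ u).smulRight v

lemma rk_apply (u v x : E) : rk u v x = ⟪u, x⟫_ℂ • v := by
  simp [rk]

lemma norm_rk_le (u v : E) : ‖rk u v‖ ≤ ‖u‖ * ‖v‖ := by
  refine ContinuousLinearMap.opNorm_le_bound _ (by positivity) fun x => ?_
  rw [rk_apply, norm_smul]
  calc ‖⟪u, x⟫_ℂ‖ * ‖v‖ ≤ (‖u‖ * ‖x‖) * ‖v‖ := by gcongr; exact norm_inner_le_norm _ _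
    _ = _ := by ring

/-- `∑ c k ⟪u k, ·⟫ v k`. -/
noncomputable def op (c : ℕ → ℂ) (u v : ℕ → E) : E →L[ℂ] E := ∑' k, c k • rk (u k) (v k)

lemma op_summable {c : ℕ → ℂ} {u v : ℕ → E}
    (h : Summable fun k => ‖c k‖ * (‖u k‖ * ‖v k‖)) : Summable fun k => c k • rk (u k) (v k) := by
  refine Summable.of_norm_bounded h fun k => ?_
  rw [norm_smul]
  gcongr
  exact norm_rk_le _ _

lemma op_hasSum {c : ℕ → ℂ} {u v : ℕ → E}
    (h : Summable fun k => ‖c k‖ * (‖u k‖ * ‖v k‖)) (x : E) :
    HasSum (fun k => (c k * ⟪u k, x⟫_ℂ) • v k) (op c u v x) := by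
  have h1 := (op_summable h).hasSum.mapL (ContinuousLinearMap.apply ℂ E x)
  simpa [op, rk_apply, smul_smul] using h1

/-- weights -/
def a (k : ℕ) : ℝ := if k = 0 then 0 else 2 ^ k

/-- the vectors `v k` -/
noncomputable def v (k : ℕ) : E :=
  if Even k then b k + (a k : ℂ) • (b (k - 1) + b (k + 1)) else b k

/-- the biorthogonal vectors `w k` -/
noncomputable def w (k : ℕ) : E :=
  if Even k then b k else b k - (a (k + 1) : ℂ) • b (k + 1) - (a (k - 1) : ℂ) • b (k - 1)

lemma a_nonneg (k : ℕ) : 0 ≤ a k := by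
  unfold a; split_ifs <;> positivity

lemma a_le (k : ℕ) : a k ≤ 2 ^ k := by
  unfold a; split_ifs
  · positivity
  · exact le_rfl

lemma norm_v_le (k : ℕ) : ‖v k‖ ≤ 3 * 2 ^ k := by
  have h1 : (1 : ℝ) ≤ 2 ^ k := one_le_pow₀ (by norm_num)
  unfold v
  split_ifs
  · calc ‖b k + (a k : ℂ) • (b (k - 1) + b (k + 1))‖
        ≤ ‖b k‖ + ‖(a k : ℂ) • (b (k - 1) + b (k + 1))‖ := norm_add_le _ _
      _ ≤ 1 + a k * (1 + 1) := by
          rw [norm_b, norm_smul, Complex.norm_real, Real.norm_of_nonneg (a_nonneg k)]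
          have := norm_add_le (b (k - 1)) (b (k + 1))
          rw [norm_b, norm_b] at this
          gcongr
          exact a_nonneg k
      _ ≤ _ := by nlinarith [a_le k]
  · rw [norm_b]; linarith

lemma norm_w_le (k : ℕ) : ‖w k‖ ≤ 4 * 2 ^ k := by
  have h1 : (1 : ℝ) ≤ 2 ^ k := one_le_pow₀ (by norm_num)
  unfold w
  split_ifs with h
  · rw [norm_b]; linarith
  · calc ‖b k - (a (k + 1) : ℂ) • b (k + 1) - (a (k - 1) : ℂ) • b (k - 1)‖
        ≤ ‖b k‖ + ‖(a (k + 1) : ℂ) • b (k + 1)‖ + ‖(a (k - 1) : ℂ) • b (k - 1)‖ := by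
          refine (norm_sub_le _ _).trans ?_
          gcongr
          exact norm_sub_le _ _
      _ = 1 + a (k + 1) + a (k - 1) := by
          rw [norm_smul, norm_smul, norm_b, norm_b, norm_b, Complex.norm_real, Complex.norm_real,
            Real.norm_of_nonneg (a_nonneg _), Real.norm_of_nonneg (a_nonneg _)]
          ring
      _ ≤ 1 + 2 ^ (k + 1) + 2 ^ (k - 1) := by
          have := a_le (k + 1)
          have := a_le (k - 1)
          gcongr
      _ ≤ _ := by
          obtain ⟨m, rfl⟩ : ∃ m, k = m + 1 := Nat.exists_eq_succ_of_ne_zero (by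
            rintro rfl; simp at h)
          simp only [Nat.add_sub_cancel]
          rw [pow_succ, pow_succ]
          have : (1 : ℝ) ≤ 2 ^ m := one_le_pow₀ (by norm_num)
          nlinarith

/-- coordinates of `x` with respect to the system -/
lemma inner_w (k : ℕ) (x : E) : ⟪w k, x⟫_ℂ =
    if Even k then x k else x k - a (k + 1) * x (k + 1) - a (k - 1) * x (k - 1) := by
  unfold w
  split_ifs
  · exact inner_b k x
  · rw [inner_sub_left, inner_sub_left, inner_smul_left, inner_smul_left, inner_b, inner_b, inner_b]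
    simp

lemma v_apply (k j : ℕ) : (v k : E) j =
    if Even k then (if j = k then (1 : ℂ) else 0) +
      (a k : ℂ) * ((if j = k - 1 then (1 : ℂ) else 0) + (if j = k + 1 then (1 : ℂ) else 0))
    else (if j = k then (1 : ℂ) else 0) := by
  unfold v
  split_ifs with h
  all_goals first
    | (rw [lp.coeFn_add, Pi.add_apply, lp.coeFn_smul, Pi.smul_apply, lp.coeFn_add, Pi.add_apply,
        b_apply, b_apply, b_apply]; simp_all)
    | (rw [b_apply]; simp_all)

lemma inner_v (k : ℕ) (y : E) : ⟪y, v k⟫_ℂ =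
    if Even k then conj (y k) + (a k : ℂ) * (conj (y (k - 1)) + conj (y (k + 1)))
    else conj (y k) := by
  have h : ∀ j, ⟪y, b j⟫_ℂ = conj (y j) := fun j => by rw [← inner_conj_symm, inner_b]
  unfold v
  split_ifs
  · rw [inner_add_right, inner_smul_right, inner_add_right, h, h, h]
  · exact h k

lemma a_zero : a 0 = 0 := by simp [a]

lemma a_pos {k : ℕ} (hk : k ≠ 0) : 0 < a k := by
  unfold a; rw [if_neg hk]; positivity

lemma biorth (j k : ℕ) : ⟪w j, v k⟫_ℂ = if j = k then (1 : ℂ) else 0 := by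
  rw [inner_w]
  simp only [v_apply]
  rcases Nat.even_or_odd j with hj | hj
  · rw [if_pos hj]
    rcases Nat.even_or_odd k with hk | hk
    · rw [if_pos hk]
      rcases Nat.eq_zero_or_pos k with rfl | hk0
      · simp [a_zero]
      · have h1 : j ≠ k - 1 := by
          rintro rfl
          obtain ⟨m, hm⟩ := hk
          obtain ⟨n, hn⟩ := hj
          omega
        have h2 : j ≠ k + 1 := by
          rintro rfl
          obtain ⟨m, hm⟩ := hk
          obtain ⟨n, hn⟩ := hj
          omega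
        rw [if_neg h1, if_neg h2]
        simp
    · rw [if_neg (Nat.not_even_iff_odd.2 hk)]
  · rw [if_neg (Nat.not_even_iff_odd.2 hj)]
    obtain ⟨n, hn⟩ := hj
    rcases Nat.even_or_odd k with hk | hk
    · rw [if_pos hk, if_pos hk, if_pos hk]
      obtain ⟨m, hm⟩ := hk
      have hne : ¬ j = k := by omega
      rw [if_neg hne, if_neg (by omega : ¬ (j + 1 = k - 1)),
        if_neg (by omega : ¬ (j + 1 = k + 1)), if_neg (by omega : ¬ (j - 1 = k + 1))]
      rcases Nat.eq_zero_or_pos k with rfl | hk0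
      · by_cases h : j - 1 = 0
        · simp [a_zero, h, hne]
        · simp [a_zero, h, hne]
      · rw [if_neg (by omega : ¬ (j - 1 = k - 1))]
        by_cases h1 : j = k - 1
        · rw [if_pos h1, if_neg (by omega : ¬ (j = k + 1)), if_pos (by omega : j + 1 = k),
            if_neg (by omega : ¬ (j - 1 = k)), (by omega : j + 1 = k)]
          simp
        · rw [if_neg h1]
          by_cases h2 : j = k + 1
          · rw [if_pos h2, if_neg (by omega : ¬ (j + 1 = k)), if_pos (by omega : j - 1 = k),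
              (by omega : j - 1 = k)]
            simp
          · rw [if_neg h2, if_neg (by omega : ¬ (j + 1 = k)), if_neg (by omega : ¬ (j - 1 = k))]
            simp
    · have hk' := Nat.not_even_iff_odd.2 hk
      rw [if_neg hk', if_neg hk', if_neg hk']
      obtain ⟨m, hm⟩ := hk
      rw [if_neg (by omega : ¬ j + 1 = k), if_neg (by omega : ¬ j - 1 = k)]
      simp

end Pool.Agent.H70R3.Reflex
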