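import Pool.Agent.H70R3.Reflex1

set_option autoImplicit false
open scoped InnerProductSpace ComplexConjugate
open Filter Topology

namespace Pool.Agent.H70R3.Reflex

/-- eigenvalues -/
noncomputable def lamR (k : ℕ) : ℝ := if k = 0 then 0 else (1 / 64) ^ k

noncomputable def lam (k : ℕ) : ℂ := (lamR k : ℂ)

noncomputable def eps (k : ℕ) : ℂ := (((1 / 64 : ℝ) ^ k : ℝ) : ℂ)

lemma lamR_nonneg (k : ℕ) : 0 ≤ lamR k := by unfold lamR; split_ifs <;> positivity

lemma lamR_le (k : ℕ) : lamR k ≤ (1 / 64) ^ k := by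
  unfold lamR; split_ifs
  · positivity
  · exact le_rfl

lemma norm_lam (k : ℕ) : ‖lam k‖ = lamR k := by
  rw [lam, Complex.norm_real, Real.norm_of_nonneg (lamR_nonneg k)]

lemma norm_eps (k : ℕ) : ‖eps k‖ = (1 / 64) ^ k := by
  rw [eps, Complex.norm_real, Real.norm_of_nonneg (by positivity)]

lemma eps_ne (k : ℕ) : eps k ≠ 0 := by
  rw [← norm_pos_iff, norm_eps]; positivity

lemma summable_aux : Summable fun k : ℕ => 12 * (1 / 16 : ℝ) ^ k :=
  (summable_geometric_of_lt_one (by norm_num) (by norm_num)).mul_left _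

lemma key_le (k : ℕ) {u w : ℝ} (hu : u ≤ 4 * 2 ^ k) (hw : w ≤ 3 * 2 ^ k) (hw0 : 0 ≤ w)
    {c : ℝ} (hc : c ≤ (1 / 64) ^ k) (hc0 : 0 ≤ c) : c * (u * w) ≤ 12 * (1 / 16 : ℝ) ^ k := by
  have h1 : u * w ≤ (4 * 2 ^ k) * (3 * 2 ^ k) := by gcongr
  have h2 : (0 : ℝ) ≤ (4 * 2 ^ k) * (3 * 2 ^ k) := by positivity
  calc c * (u * w) ≤ c * ((4 * 2 ^ k) * (3 * 2 ^ k)) := by gcongr
    _ ≤ (1 / 64) ^ k * ((4 * 2 ^ k) * (3 * 2 ^ k)) := by gcongr
    _ = 12 * ((1 / 64) * (2 * 2)) ^ k := by rw [mul_pow, mul_pow]; ring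
    _ = _ := by norm_num

lemma norm_b_le (k : ℕ) : ‖b k‖ ≤ 3 * 2 ^ k := by
  have h1 : (1 : ℝ) ≤ 2 ^ k := one_le_pow₀ (by norm_num)
  rw [norm_b]; linarith

lemma norm_b_le' (k : ℕ) : ‖b k‖ ≤ 4 * 2 ^ k := by
  have h1 : (1 : ℝ) ≤ 2 ^ k := one_le_pow₀ (by norm_num)
  rw [norm_b]; linarith

lemma sT : Summable fun k => ‖lam k‖ * (‖w k‖ * ‖v k‖) :=
  Summable.of_nonneg_of_le (fun k => by positivity) (fun k => by
    rw [norm_lam]
    exact key_le k (norm_w_le k) (norm_v_le k) (norm_nonneg _) (lamR_le k) (lamR_nonneg k))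
    summable_aux

lemma sN : Summable fun k => ‖lam k‖ * (‖b k‖ * ‖b k‖) :=
  Summable.of_nonneg_of_le (fun k => by positivity) (fun k => by
    rw [norm_lam]
    exact key_le k (norm_b_le' k) (norm_b_le k) (norm_nonneg _) (lamR_le k) (lamR_nonneg k))
    summable_aux

lemma sX : Summable fun k => ‖eps k‖ * (‖w k‖ * ‖b k‖) :=
  Summable.of_nonneg_of_le (fun k => by positivity) (fun k => by
    rw [norm_eps]
    exact key_le k (norm_w_le k) (norm_b_le k) (norm_nonneg _) le_rfl (by positivity))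
    summable_aux

lemma sY : Summable fun k => ‖eps k‖ * (‖b k‖ * ‖v k‖) :=
  Summable.of_nonneg_of_le (fun k => by positivity) (fun k => by
    rw [norm_eps]
    exact key_le k (norm_b_le' k) (norm_v_le k) (norm_nonneg _) le_rfl (by positivity))
    summable_aux

/-- The non-reflexive operator. -/
noncomputable def T : E →L[ℂ] E := op lam w v
/-- The normal (diagonal) operator. -/
noncomputable def N : E →L[ℂ] E := op lam b b
noncomputable def X : E →L[ℂ] E := op eps w b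
noncomputable def Y : E →L[ℂ] E := op eps b v

lemma hT (x : E) : HasSum (fun k => (lam k * ⟪w k, x⟫_ℂ) • v k) (T x) := op_hasSum sT x
lemma hN (x : E) : HasSum (fun k => (lam k * ⟪b k, x⟫_ℂ) • b k) (N x) := op_hasSum sN x
lemma hX (x : E) : HasSum (fun k => (eps k * ⟪w k, x⟫_ℂ) • b k) (X x) := op_hasSum sX x
lemma hY (x : E) : HasSum (fun k => (eps k * ⟪b k, x⟫_ℂ) • v k) (Y x) := op_hasSum sY x

lemma inner_b_b (j k : ℕ) : ⟪b j, b k⟫_ℂ = if j = k then (1 : ℂ) else 0 := by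
  rw [inner_b, b_apply]

lemma hasSum_pick {F : Type*} [AddCommMonoid F] [TopologicalSpace F] [T2Space F] [Module ℂ F]
    (c : ℕ → ℂ) (u : ℕ → F) (j : ℕ) {s : F}
    (h : HasSum (fun k => (c k * (if k = j then (1 : ℂ) else 0)) • u k) s) : s = c j • u j := by
  refine h.unique ?_
  have := hasSum_single (f := fun k => (c k * (if k = j then (1 : ℂ) else 0)) • u k) j
    (fun k hk => by simp [hk])
  simpa using this

lemma T_v (j : ℕ) : T (v j) = lam j • v j :=
  hasSum_pick lam v j (by simpa only [biorth] using hT (v j))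

lemma X_v (j : ℕ) : X (v j) = eps j • b j :=
  hasSum_pick eps b j (by simpa only [biorth] using hX (v j))

lemma N_b (j : ℕ) : N (b j) = lam j • b j :=
  hasSum_pick lam b j (by simpa only [inner_b_b] using hN (b j))

lemma Y_b (j : ℕ) : Y (b j) = eps j • v j :=
  hasSum_pick eps v j (by simpa only [inner_b_b] using hY (b j))

lemma XT : X.comp T = N.comp X := by
  ext1 x
  have h1 := (hT x).mapL X
  have h2 := (hX x).mapL N
  simp only [map_smul, X_v, N_b] at h1 h2
  refine h1.unique (h2.congr_fun fun k => ?_) |>.trans ?_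
  · rw [smul_smul, smul_smul]; congr 1; ring
  · rfl

lemma TY : T.comp Y = Y.comp N := by
  ext1 x
  have h1 := (hY x).mapL T
  have h2 := (hN x).mapL Y
  simp only [map_smul, T_v, Y_b] at h1 h2
  refine h1.unique (h2.congr_fun fun k => ?_) |>.trans ?_
  · rw [smul_smul, smul_smul]; congr 1; ring
  · rfl

end Pool.Agent.H70R3.Reflex
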