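import Pool.Agent.H70R3.Reflex2

set_option autoImplicit false
open scoped InnerProductSpace ComplexConjugate
open Filter Topology

namespace Pool.Agent.H70R3.Reflex

lemma N_apply (x : E) (j : ℕ) : (N x : E) j = lam j * x j := by
  rw [← inner_b]
  have h := (hN x).mapL (innerSL ℂ (b j))
  simp only [map_smul, innerSL_apply_apply, inner_b_b, smul_eq_mul] at h
  have h2 := hasSum_single (f := fun k => lam k * ⟪b k, x⟫_ℂ * (if j = k then (1 : ℂ) else 0)) j
    (fun k hk => by simp [Ne.symm hk])
  have := h.unique h2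
  rw [this, inner_b]
  simp

lemma N_symm : (N : E →ₗ[ℂ] E).IsSymmetric := by
  intro x y
  have h1 := lp.hasSum_inner (𝕜 := ℂ) (N x) y
  have h2 := lp.hasSum_inner (𝕜 := ℂ) x (N y)
  refine h1.unique (h2.congr_fun fun k => ?_)
  rw [N_apply, N_apply]
  simp only [RCLike.inner_apply, map_mul]
  have : conj (lam k) = lam k := Complex.conj_ofReal _
  rw [this]; ring

lemma N_normal : IsStarNormal N :=
  (ContinuousLinearMap.isSelfAdjoint_iff_isSymmetric.2 N_symm).isStarNormal

lemma w_total {x : E} (h : ∀ k, ⟪w k, x⟫_ℂ = 0) : x = 0 := by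
  have he : ∀ k, Even k → x k = 0 := fun k hk => by
    have := h k; rw [inner_w, if_pos hk] at this; exact this
  ext k
  rcases Nat.even_or_odd k with hk | hk
  · exact he k hk
  · have := h k
    rw [inner_w, if_neg (Nat.not_even_iff_odd.2 hk)] at this
    obtain ⟨n, rfl⟩ := hk
    rw [he (2 * n + 1 + 1) (by simp [parity_simps]), he (2 * n + 1 - 1) (by simp)] at this
    simpa using this

lemma v_total {y : E} (h : ∀ k, ⟪y, v k⟫_ℂ = 0) : y = 0 := by
  have ho : ∀ k, Odd k → y k = 0 := fun k hk => by
    have := h k; rw [inner_v, if_neg (Nat.not_even_iff_odd.2 hk)] at this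
    simpa using this
  ext k
  rcases Nat.even_or_odd k with hk | hk
  · have := h k
    rw [inner_v, if_pos hk] at this
    rcases Nat.eq_zero_or_pos k with rfl | hk0
    · simpa [a_zero] using this
    · rw [ho (k + 1) hk.add_one, ho (k - 1) (Nat.Even.sub_odd hk0 hk odd_one)] at this
      simpa using this
  · exact ho k hk

lemma X_inj : Function.Injective X := by
  rw [injective_iff_map_eq_zero]
  intro x hx
  refine w_total fun k => ?_
  have h := (hX x).mapL (innerSL ℂ (b k))
  simp only [map_smul, innerSL_apply_apply, inner_b_b, smul_eq_mul, hx, inner_zero_right] at h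
  have h2 := hasSum_single (f := fun j => eps j * ⟪w j, x⟫_ℂ * (if k = j then (1 : ℂ) else 0)) k
    (fun j hj => by simp [Ne.symm hj])
  have := h.unique h2
  simpa [eps_ne] using this.symm

lemma Y_inj : Function.Injective Y := by
  rw [injective_iff_map_eq_zero]
  intro x hx
  ext k
  have h := (hY x).mapL (innerSL ℂ (w k))
  simp only [map_smul, innerSL_apply_apply, biorth, smul_eq_mul, hx, inner_zero_right] at h
  have h2 := hasSum_single (f := fun j => eps j * ⟪b j, x⟫_ℂ * (if k = j then (1 : ℂ) else 0)) k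
    (fun j hj => by simp [Ne.symm hj])
  have := h.unique h2
  simpa [eps_ne, inner_b] using this.symm

lemma dense_of_orth (S : E →L[ℂ] E) (h : ∀ y : E, (∀ x, ⟪y, S x⟫_ℂ = 0) → y = 0) :
    DenseRange S := by
  have h1 : (LinearMap.range (S : E →ₗ[ℂ] E))ᗮ = ⊥ := by
    rw [Submodule.eq_bot_iff]
    intro y hy
    apply h y
    intro x
    rw [Submodule.mem_orthogonal'] at hy
    exact hy _ ⟨x, rfl⟩
  have h2 := (Submodule.topologicalClosure_eq_top_iff).2 h1
  have h3 := (Submodule.dense_iff_topologicalClosure_eq_top).2 h2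
  exact h3

lemma X_dense : DenseRange X := by
  refine dense_of_orth X fun y hy => ?_
  ext k
  have := hy (v k)
  rw [X_v, inner_smul_right, ← inner_conj_symm, inner_b] at this
  simpa [eps_ne] using this

lemma Y_dense : DenseRange Y := by
  refine dense_of_orth Y fun y hy => ?_
  refine v_total fun k => ?_
  have := hy (b k)
  rw [Y_b, inner_smul_right] at this
  simpa [eps_ne] using this

/-- powers of `T` -/
lemma hTpow (m : ℕ) (x : E) :
    HasSum (fun k => (lam k ^ (m + 1) * ⟪w k, x⟫_ℂ) • v k) ((T ^ (m + 1)) x) := by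
  induction m with
  | zero => simpa using hT x
  | succ m ih =>
    have h := ih.mapL T
    simp only [map_smul, T_v] at h
    rw [pow_succ' T (m + 1)]
    refine h.congr_fun fun k => ?_
    rw [smul_smul]; congr 1; ring

lemma hTpow_inner (m : ℕ) (x y : E) :
    HasSum (fun k => lam k ^ (m + 1) * (⟪w k, x⟫_ℂ * ⟪y, v k⟫_ℂ)) ⟪y, (T ^ (m + 1)) x⟫_ℂ := by
  have h := (hTpow m x).mapL (innerSL ℂ y)
  simp only [map_smul, innerSL_apply_apply, smul_eq_mul] at h
  refine h.congr_fun fun k => ?_
  ring

/-- dominance argument -/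
lemma dominance (δ : ℕ → ℂ) (hδ : Summable fun k => ‖lam k * δ k‖)
    (h : ∀ m : ℕ, HasSum (fun k => lam k ^ (m + 1) * δ k) 0) : ∀ k, k ≠ 0 → δ k = 0 := by
  intro k
  induction k using Nat.strong_induction_on with
  | _ k ih =>
    intro hk
    have hlk : 0 < lamR k := by unfold lamR; rw [if_neg hk]; positivity
    -- lam j / lam k ≤ 1/64 for j > k
    have hlt : ∀ j, k < j → lamR j ≤ (1 / 64) * lamR k := by
      intro j hj
      unfold lamR
      rw [if_neg hk, if_neg (by omega)]
      obtain ⟨i, rfl⟩ : ∃ i, j = k + 1 + i := ⟨j - (k + 1), by omega⟩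
      rw [pow_add, pow_add, pow_one]
      have : (1 / 64 : ℝ) ^ i ≤ 1 := pow_le_one₀ (by norm_num) (by norm_num)
      have h0 : (0 : ℝ) ≤ (1 / 64) ^ k * (1 / 64) := by positivity
      nlinarith
    set C : ℝ := ∑' j, ‖lam j * δ j‖ with hC
    -- the bound
    have hb : ∀ m : ℕ, ‖lam k * δ k‖ ≤ (1 / 64) ^ m * C := by
      intro m
      have h1 := h m
      have h2 : HasSum (fun j => if j = k then 0 else lam j ^ (m + 1) * δ j)
          (0 - lam k ^ (m + 1) * δ k) := by
        have h3 := h1.sub (hasSum_ite_eq k (lam k ^ (m + 1) * δ k))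
        refine h3.congr_fun fun j => ?_
        split_ifs with hj
        · subst hj; ring
        · ring
      have h4 : ‖lam k ^ (m + 1) * δ k‖ ≤ ∑' j, (lamR k / 64) ^ m * ‖lam j * δ j‖ := by
        have h5 : ‖(0 : ℂ) - lam k ^ (m + 1) * δ k‖ ≤ ∑' j, (lamR k / 64) ^ m * ‖lam j * δ j‖ := by
          rw [← h2.tsum_eq]
          refine tsum_of_norm_bounded (hδ.mul_left _).hasSum fun j => ?_
          split_ifs with hj
          · rw [norm_zero]; positivity
          · rcases lt_or_gt_of_ne hj with hj' | hj'
            · rcases Nat.eq_zero_or_pos j with rfl | hj0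
              · simp [lam, lamR]
              · rw [ih j hj' (by omega)]
                simp
            · rw [pow_succ, mul_assoc, norm_mul, norm_pow, norm_lam]
              have := hlt j hj'
              have h0 := lamR_nonneg j
              gcongr
              linarith
        simpa using h5
      rw [tsum_mul_left, pow_succ, mul_assoc, norm_mul, norm_pow, norm_lam, div_pow] at h4
      have hp : 0 < lamR k ^ m := by positivity
      have h6 : lamR k ^ m * ‖lam k * δ k‖ ≤ lamR k ^ m * ((1 / 64) ^ m * C) := by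
        refine h4.trans (le_of_eq ?_)
        rw [hC]
        rw [one_div, inv_pow]; ring
      exact le_of_mul_le_mul_left h6 hp
    have hlim : Tendsto (fun m : ℕ => (1 / 64 : ℝ) ^ m * C) atTop (𝓝 0) := by
      have := (tendsto_pow_atTop_nhds_zero_of_lt_one (by norm_num : (0 : ℝ) ≤ 1 / 64)
        (by norm_num)).mul_const C
      simpa using this
    have h7 : ‖lam k * δ k‖ ≤ 0 := ge_of_tendsto' hlim hb
    have h8 : lam k * δ k = 0 := norm_le_zero_iff.1 h7
    rcases mul_eq_zero.1 h8 with h9 | h9
    · exfalso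
      have : ‖lam k‖ = 0 := by rw [h9, norm_zero]
      rw [norm_lam] at this
      linarith
    · exact h9

end Pool.Agent.H70R3.Reflex
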