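import Pool.Agent.H70R3.Reflex3

set_option autoImplicit false
open scoped InnerProductSpace ComplexConjugate
open Filter Topology

namespace Pool.Agent.H70R3.Reflex

lemma not_tendsto_zero (r τ : ℕ → ℝ) (hτ : Summable τ) (hτ0 : ∀ n, 0 ≤ τ n)
    (m₀ : ℕ) (hr : ∀ n, m₀ ≤ n → 0 < r n) (h : ∀ n, m₀ ≤ n → r n * (1 - τ n) ≤ r (n + 1)) :
    ¬ Tendsto r atTop (𝓝 0) := by
  intro hlim
  have h1 := tendsto_sum_nat_add τ
  obtain ⟨m, hm, hm2⟩ : ∃ m, m₀ ≤ m ∧ ∑' k, τ (k + m) < 1 / 2 :=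
    ((eventually_ge_atTop m₀).and (h1.eventually_lt_const (by norm_num : (0:ℝ) < 1 / 2))).exists
  have hs : Summable fun k => τ (k + m) := (summable_nat_add_iff m).2 hτ
  have hpart : ∀ j, ∑ i ∈ Finset.range j, τ (i + m) ≤ 1 / 2 := fun j =>
    (hs.sum_le_tsum _ fun i _ => hτ0 _).trans hm2.le
  have hb : ∀ j, r m * (1 - ∑ i ∈ Finset.range j, τ (i + m)) ≤ r (j + m) := by
    intro j
    induction j with
    | zero => simp
    | succ j ih =>
      have h2 := h (j + m) (by omega)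
      have h3 := hr m hm
      have h4 := hpart j
      have h5 := hpart (j + 1)
      have h6 : 0 ≤ ∑ i ∈ Finset.range j, τ (i + m) := Finset.sum_nonneg fun i _ => hτ0 _
      have h7 : τ (j + m) ≤ 1 / 2 := by
        rw [Finset.sum_range_succ] at h5
        linarith
      rw [Finset.sum_range_succ, (by omega : j + 1 + m = j + m + 1)]
      have h8 : r m * (1 - ∑ i ∈ Finset.range j, τ (i + m)) * (1 - τ (j + m)) ≤
          r (j + m) * (1 - τ (j + m)) := by
        gcongr
        linarith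
      have h9 : 0 ≤ r m * ((∑ i ∈ Finset.range j, τ (i + m)) * τ (j + m)) :=
        mul_nonneg h3.le (mul_nonneg h6 (hτ0 _))
      nlinarith
  have hlow : ∀ j, r m / 2 ≤ r (j + m) := fun j => by
    have := hb j
    have h4 := hpart j
    have h3 := hr m hm
    nlinarith
  have h10 : Tendsto (fun j => r (j + m)) atTop (𝓝 0) := (tendsto_add_atTop_iff_nat m).2 hlim
  have := ge_of_tendsto' h10 hlow
  have h3 := hr m hm
  linarith

lemma inner_hasSum (x y : E) : HasSum (fun k => conj (y k) * x k) ⟪y, x⟫_ℂ := by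
  have h := lp.hasSum_inner (𝕜 := ℂ) y x
  refine h.congr_fun fun k => ?_
  simp only [RCLike.inner_apply]
  ring

lemma tendsto_coord (y : E) : Tendsto (fun k => y k) atTop (𝓝 0) := by
  have h := (inner_hasSum y y).summable.tendsto_atTop_zero
  have h2 : Tendsto (fun k => ‖y k‖ ^ 2) atTop (𝓝 0) := by
    have := h.norm
    rw [norm_zero] at this
    refine this.congr fun k => ?_
    rw [norm_mul, RCLike.norm_conj, sq]
  have h3 := h2.sqrt
  rw [Real.sqrt_zero] at h3
  rw [tendsto_zero_iff_norm_tendsto_zero]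
  refine h3.congr fun k => ?_
  rw [Real.sqrt_sq (norm_nonneg _)]

/-- the strongness lemma -/
lemma strong (x y : E) (h : ∀ k, k ≠ 0 → ⟪w k, x⟫_ℂ * ⟪y, v k⟫_ℂ = 0) :
    ⟪y, x⟫_ℂ = conj (y 0) * x 0 := by
  set S : ℕ → ℂ := fun n => ∑ k ∈ Finset.range n, conj (y (k + 1)) * x (k + 1) with hS
  have hs : HasSum (fun k => conj (y (k + 1)) * x (k + 1)) (⟪y, x⟫_ℂ - conj (y 0) * x 0) := by
    have := (hasSum_nat_add_iff' (f := fun k => conj (y k) * x k) 1).2 (inner_hasSum x y)
    simpa using this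
  have hlim : Tendsto S atTop (𝓝 (⟪y, x⟫_ℂ - conj (y 0) * x 0)) := hs.tendsto_sum_nat
  by_contra hcon
  set s : ℂ := ⟪y, x⟫_ℂ - conj (y 0) * x 0 with hs'
  have hs0 : s ≠ 0 := fun h0 => hcon (sub_eq_zero.1 h0)
  -- relations
  have hodd : ∀ n : ℕ, (x (2 * n + 1) - a (2 * n + 2) * x (2 * n + 2) - a (2 * n) * x (2 * n))
      * conj (y (2 * n + 1)) = 0 := by
    intro n
    have := h (2 * n + 1) (by omega)
    rwa [inner_w, inner_v, if_neg (by simp [parity_simps]), if_neg (by simp [parity_simps]),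
      (by omega : 2 * n + 1 - 1 = 2 * n)] at this
  have heven : ∀ n : ℕ, x (2 * n + 2) * (conj (y (2 * n + 2)) +
      a (2 * n + 2) * (conj (y (2 * n + 1)) + conj (y (2 * n + 3)))) = 0 := by
    intro n
    have := h (2 * n + 2) (by omega)
    rwa [inner_w, inner_v, if_pos (by simp [parity_simps]), if_pos (by simp [parity_simps]),
      (by omega : 2 * n + 2 - 1 = 2 * n + 1)] at this
  have h0 : ∀ n : ℕ, S (2 * n) = - (a (2 * n) * x (2 * n) * conj (y (2 * n + 1))) ∧
      S (2 * n + 1) = a (2 * n + 2) * x (2 * n + 2) * conj (y (2 * n + 1)) := by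
    intro n
    have step : ∀ n, S (2 * n) = - (a (2 * n) * x (2 * n) * conj (y (2 * n + 1))) →
        S (2 * n + 1) = a (2 * n + 2) * x (2 * n + 2) * conj (y (2 * n + 1)) := by
      intro n hn
      have e : S (2 * n + 1) = S (2 * n) + conj (y (2 * n + 1)) * x (2 * n + 1) :=
        Finset.sum_range_succ _ _
      rw [e, hn]
      linear_combination hodd n
    induction n with
    | zero =>
      have : S (2 * 0) = - (a (2 * 0) * x (2 * 0) * conj (y (2 * 0 + 1))) := by
        simp [hS, a_zero]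
      exact ⟨this, step 0 this⟩
    | succ n ih =>
      have e : S (2 * n + 2) = S (2 * n + 1) + conj (y (2 * n + 2)) * x (2 * n + 2) :=
        Finset.sum_range_succ _ _
      have : S (2 * (n + 1)) = - (a (2 * (n + 1)) * x (2 * (n + 1)) * conj (y (2 * (n + 1) + 1))) := by
        rw [(by ring : 2 * (n + 1) = 2 * n + 2), e, ih.2]
        linear_combination heven n
      exact ⟨this, step _ this⟩
  have hodd' : Tendsto (fun n : ℕ => S (2 * n + 1)) atTop (𝓝 s) :=
    hlim.comp (tendsto_atTop_mono (fun n => by omega : ∀ n : ℕ, n ≤ 2 * n + 1) tendsto_id)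
  have hsn : 0 < ‖s‖ := norm_pos_iff.2 hs0
  obtain ⟨m₀, hm₀⟩ : ∃ m₀, ∀ n, m₀ ≤ n → ‖s‖ / 2 < ‖S (2 * n + 1)‖ := by
    have := hodd'.norm.eventually_const_lt (by linarith : ‖s‖ / 2 < ‖s‖)
    exact eventually_atTop.1 this
  have hne : ∀ n, m₀ ≤ n → 0 < ‖y (2 * n + 1)‖ := by
    intro n hn
    rw [norm_pos_iff]
    intro h1
    have h2 := hm₀ n hn
    rw [(h0 n).2, h1, map_zero, mul_zero, norm_zero] at h2
    linarith
  set τ : ℕ → ℝ := fun n => 2 / ‖s‖ * ‖conj (y (2 * n + 2)) * x (2 * n + 2)‖ with hτ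
  have hτs : Summable τ := by
    have h1 : Summable fun k => ‖conj (y k) * x k‖ := (inner_hasSum x y).summable.norm
    have h2 := h1.comp_injective (i := fun n : ℕ => 2 * n + 2) (fun m n h => by
      simp only at h; omega)
    exact h2.mul_left _
  refine not_tendsto_zero (fun n => ‖y (2 * n + 1)‖) τ hτs (fun n => by positivity) m₀ hne ?_ ?_
  · intro n hn
    have h1 := (h0 n).2
    have h2 := (h0 (n + 1)).1
    rw [(by ring : 2 * (n + 1) = 2 * n + 2)] at h2
    have e : S (2 * n + 2) = S (2 * n + 1) + conj (y (2 * n + 2)) * x (2 * n + 2) :=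
      Finset.sum_range_succ _ _
    have h3 : S (2 * n + 2) * conj (y (2 * n + 1)) = - S (2 * n + 1) * conj (y (2 * n + 3)) := by
      rw [h1, h2]; ring
    have h4 : ‖S (2 * n + 2)‖ * ‖y (2 * n + 1)‖ = ‖S (2 * n + 1)‖ * ‖y (2 * n + 3)‖ := by
      have := congrArg norm h3
      rwa [norm_mul, norm_mul, norm_neg, RCLike.norm_conj, RCLike.norm_conj] at this
    have h5 : ‖S (2 * n + 1)‖ - ‖conj (y (2 * n + 2)) * x (2 * n + 2)‖ ≤ ‖S (2 * n + 2)‖ := by
      rw [e]
      have := norm_sub_le (S (2 * n + 1) + conj (y (2 * n + 2)) * x (2 * n + 2))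
        (conj (y (2 * n + 2)) * x (2 * n + 2))
      rw [add_sub_cancel_right] at this
      linarith
    have h6 := hm₀ n hn
    show ‖y (2 * n + 1)‖ * (1 - τ n) ≤ ‖y (2 * (n + 1) + 1)‖
    rw [(by ring : 2 * (n + 1) + 1 = 2 * n + 3)]
    have h7 : 0 < ‖S (2 * n + 1)‖ := by linarith
    set t : ℝ := ‖conj (y (2 * n + 2)) * x (2 * n + 2)‖ with ht
    have ht0 : 0 ≤ t := norm_nonneg _
    have h8 : ‖S (2 * n + 1)‖ * (1 - τ n) ≤ ‖S (2 * n + 2)‖ := by
      have : t ≤ ‖S (2 * n + 1)‖ * τ n := by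
        show t ≤ ‖S (2 * n + 1)‖ * (2 / ‖s‖ * t)
        have : 1 ≤ ‖S (2 * n + 1)‖ * (2 / ‖s‖) := by
          rw [mul_div_assoc', le_div_iff₀ hsn]; linarith
        nlinarith
      linarith
    have h9 : ‖S (2 * n + 1)‖ * (‖y (2 * n + 1)‖ * (1 - τ n)) ≤
        ‖S (2 * n + 1)‖ * ‖y (2 * n + 3)‖ := by
      rw [← h4]
      have := mul_le_mul_of_nonneg_right h8 (norm_nonneg (y (2 * n + 1)))
      linarith
    exact le_of_mul_le_mul_left h9 h7
  · have h1 := (tendsto_coord y).norm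
    rw [norm_zero] at h1
    exact h1.comp (tendsto_atTop_mono (fun n => by omega : ∀ n : ℕ, n ≤ 2 * n + 1) tendsto_id)

end Pool.Agent.H70R3.Reflex
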