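import Pool.Agent.H70R3.Reflex4

set_option autoImplicit false
open scoped InnerProductSpace ComplexConjugate
open Filter Topology

namespace Pool.Agent.H70R3.Reflex

lemma memlp_of_le (f : ℕ → ℂ) (h : ∀ k, ‖f k‖ ≤ 4 * (3 / 4) ^ k) : Memℓp f 2 := by
  apply memℓp_gen
  have h1 : Summable fun k : ℕ => 16 * (9 / 16 : ℝ) ^ k :=
    (summable_geometric_of_lt_one (by norm_num) (by norm_num)).mul_left _
  refine Summable.of_nonneg_of_le (fun k => by positivity) (fun k => ?_) h1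
  have h2 : ‖f k‖ ^ 2 ≤ (4 * (3 / 4) ^ k) ^ 2 := by gcongr; exact h k
  calc ‖f k‖ ^ (2 : ENNReal).toReal = ‖f k‖ ^ 2 := by
        rw [ENNReal.toReal_ofNat, Real.rpow_ofNat]
    _ ≤ (4 * (3 / 4) ^ k) ^ 2 := h2
    _ = 16 * ((3 / 4) ^ 2) ^ k := by rw [mul_pow, ← pow_mul, ← pow_mul, mul_comm k 2]; norm_num
    _ = _ := by norm_num

noncomputable def fy (i k : ℕ) : ℂ :=
  if Odd k ∧ (k / 2) % 2 = i then (1 / 2) ^ (k / 2) else 0

noncomputable def fx (i k : ℕ) : ℂ :=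
  if k = 1 then (if i = 0 then 1 else 0) else
  if Even k ∧ k ≠ 0 then
    (if (k / 2 - 1) % 2 = i then (1 / 2) ^ (k / 2 + 1) else - (1 / 2) ^ (k / 2)) else 0

lemma half_pow_le (n : ℕ) : ((1 / 2 : ℝ)) ^ n ≤ (3 / 4) ^ (2 * n) := by
  rw [pow_mul]
  exact pow_le_pow_left₀ (by norm_num) (by norm_num) n

lemma fy_le (i k : ℕ) : ‖fy i k‖ ≤ 4 * (3 / 4) ^ k := by
  unfold fy
  split_ifs with h
  · obtain ⟨⟨n, rfl⟩, -⟩ := h
    rw [(by omega : (2 * n + 1) / 2 = n)]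
    rw [norm_pow]
    have h1 := half_pow_le n
    have h2 : ‖(1 / 2 : ℂ)‖ = 1 / 2 := by simp
    rw [h2, pow_succ]
    have : (0 : ℝ) ≤ (3 / 4) ^ (2 * n) := by positivity
    linarith
  · rw [norm_zero]; positivity

lemma fx_le (i k : ℕ) : ‖fx i k‖ ≤ 4 * (3 / 4) ^ k := by
  have h2 : ‖(1 / 2 : ℂ)‖ = 1 / 2 := by simp
  unfold fx
  split_ifs with h h' h'' h'''
  · subst h; norm_num
  · rw [norm_zero]; positivity
  · obtain ⟨⟨n, rfl⟩, h0⟩ := h''
    rw [(by omega : (n + n) / 2 = n), norm_pow, h2, pow_succ, ← two_mul]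
    have h1 := half_pow_le n
    have : (0 : ℝ) ≤ (3 / 4) ^ (2 * n) := by positivity
    have : (0 : ℝ) ≤ (1 / 2) ^ n := by positivity
    linarith
  · obtain ⟨⟨n, rfl⟩, h0⟩ := h''
    rw [(by omega : (n + n) / 2 = n), norm_neg, norm_pow, h2, ← two_mul]
    have h1 := half_pow_le n
    have : (0 : ℝ) ≤ (3 / 4) ^ (2 * n) := by positivity
    linarith
  · rw [norm_zero]; positivity

noncomputable def ys (i : ℕ) : E := ⟨fy i, memlp_of_le _ (fy_le i)⟩
noncomputable def xs (i : ℕ) : E := ⟨fx i, memlp_of_le _ (fx_le i)⟩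

lemma ys_apply (i k : ℕ) : (ys i : E) k = fy i k := rfl
lemma xs_apply (i k : ℕ) : (xs i : E) k = fx i k := rfl

lemma fy_odd (i n : ℕ) : fy i (2 * n + 1) = if n % 2 = i then (1 / 2) ^ n else 0 := by
  unfold fy
  rw [(by omega : (2 * n + 1) / 2 = n)]
  simp

lemma fy_even (i n : ℕ) : fy i (2 * n) = 0 := by
  unfold fy
  rw [if_neg (by simp)]

lemma fx_odd (i n : ℕ) : fx i (2 * n + 1) = if n = 0 ∧ i = 0 then 1 else 0 := by
  unfold fx
  rcases Nat.eq_zero_or_pos n with rfl | hn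
  · simp
  · rw [if_neg (by omega), if_neg (by simp [parity_simps]), if_neg (by omega)]

lemma fx_even (i n : ℕ) : fx i (2 * n + 2) =
    if n % 2 = i then (1 / 2) ^ (n + 2) else - (1 / 2) ^ (n + 1) := by
  unfold fx
  rw [if_neg (by omega), if_pos ⟨by simp [parity_simps], by omega⟩,
    (by omega : (2 * n + 2) / 2 = n + 1), (by omega : n + 1 - 1 = n)]

lemma fx_zero (i : ℕ) : fx i 0 = 0 := by
  unfold fx; simp

lemma conj_half (n : ℕ) : conj ((1 / 2 : ℂ) ^ n) = (1 / 2) ^ n := by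
  rw [map_pow, map_div₀, map_one, map_ofNat]

lemma pw1 (n : ℕ) : (4 : ℂ) ^ (n + 1) * ((1 / 2) ^ n * (1 / 2) ^ (n + 2)) = 1 := by
  rw [← pow_add, (by ring : n + (n + 2) = 2 * (n + 1)), pow_mul, ← mul_pow]
  norm_num

lemma pw2 (n : ℕ) : (4 : ℂ) ^ (n + 1) * ((1 / 2) ^ (n + 1) * (1 / 2) ^ (n + 1)) = 1 := by
  rw [← pow_add, (by ring : n + 1 + (n + 1) = 2 * (n + 1)), pow_mul, ← mul_pow]
  norm_num

lemma a_even (n : ℕ) : ((a (2 * n + 2) : ℝ) : ℂ) = 4 ^ (n + 1) := by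
  unfold a
  rw [if_neg (by omega), (by ring : 2 * n + 2 = 2 * (n + 1)), pow_mul]
  norm_num

lemma orth_even (n : ℕ) : ⟪w (2 * n + 2), xs 0⟫_ℂ * ⟪ys 0, v (2 * n + 2)⟫_ℂ +
    ⟪w (2 * n + 2), xs 1⟫_ℂ * ⟪ys 1, v (2 * n + 2)⟫_ℂ = 0 := by
  have he : Even (2 * n + 2) := by simp [parity_simps]
  rw [inner_w, inner_w, inner_v, inner_v, if_pos he, if_pos he, if_pos he, if_pos he,
    (by omega : 2 * n + 2 - 1 = 2 * n + 1), (by ring : 2 * n + 2 + 1 = 2 * (n + 1) + 1)]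
  simp only [xs_apply, ys_apply, fx_even, fy_odd, a_even]
  rw [(by ring : 2 * n + 2 = 2 * (n + 1))]
  simp only [fy_even, map_zero, zero_add]
  rcases Nat.mod_two_eq_zero_or_one n with h | h
  · have h' : (n + 1) % 2 = 1 := by omega
    simp only [h, h', if_true, zero_ne_one, one_ne_zero, if_false, map_zero, conj_half, add_zero,
      zero_add]
    have h1 := pw1 n
    have h2 := pw2 n
    linear_combination h1 - h2
  · have h' : (n + 1) % 2 = 0 := by omega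
    simp only [h, h', if_true, zero_ne_one, one_ne_zero, if_false, map_zero, conj_half, add_zero,
      zero_add]
    have h1 := pw1 n
    have h2 := pw2 n
    linear_combination h1 - h2

lemma orth_odd (n : ℕ) : ⟪w (2 * n + 1), xs 0⟫_ℂ * ⟪ys 0, v (2 * n + 1)⟫_ℂ +
    ⟪w (2 * n + 1), xs 1⟫_ℂ * ⟪ys 1, v (2 * n + 1)⟫_ℂ = 0 := by
  have he : ¬ Even (2 * n + 1) := by simp
  rw [inner_w, inner_w, inner_v, inner_v, if_neg he, if_neg he, if_neg he, if_neg he,
    (by omega : 2 * n + 1 - 1 = 2 * n), (by ring : 2 * n + 1 + 1 = 2 * n + 2)]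
  simp only [xs_apply, ys_apply, fx_even, fy_odd, a_even, fx_odd]
  rcases Nat.eq_zero_or_pos n with rfl | hn
  · simp [a_zero]
    norm_num
  · obtain ⟨m, rfl⟩ : ∃ m, n = m + 1 := ⟨n - 1, by omega⟩
    rw [(by ring : 2 * (m + 1) = 2 * m + 2)]
    simp only [a_even, fx_even]
    have h1 := pw1 (m + 1)
    have h2 := pw2 m
    rcases Nat.mod_two_eq_zero_or_one m with h | h
    · have h' : (m + 1) % 2 = 1 := by omega
      simp only [h, h', if_true, zero_ne_one, one_ne_zero, if_false, map_zero, conj_half,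
        false_and, and_false, Nat.succ_ne_zero, add_eq_zero, mul_zero, zero_add]
      linear_combination -h1 + h2
    · have h' : (m + 1) % 2 = 0 := by omega
      simp only [h, h', if_true, zero_ne_one, one_ne_zero, if_false, map_zero, conj_half,
        false_and, and_false, Nat.succ_ne_zero, add_eq_zero, mul_zero, add_zero]
      linear_combination -h1 + h2

lemma orth_all (k : ℕ) (hk : k ≠ 0) : ⟪w k, xs 0⟫_ℂ * ⟪ys 0, v k⟫_ℂ +
    ⟪w k, xs 1⟫_ℂ * ⟪ys 1, v k⟫_ℂ = 0 := by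
  rcases Nat.even_or_odd k with ⟨n, hn⟩ | ⟨n, hn⟩
  · obtain ⟨m, rfl⟩ : ∃ m, n = m + 1 := ⟨n - 1, by omega⟩
    rw [(by omega : k = 2 * m + 2)]
    exact orth_even m
  · rw [hn]; exact orth_odd n

lemma inner_ys_xs_zero : ⟪ys 0, xs 0⟫_ℂ = 1 := by
  have h := inner_hasSum (xs 0) (ys 0)
  have h2 := hasSum_single (f := fun k => conj ((ys 0 : E) k) * (xs 0 : E) k) 1 (fun k hk => by
    rcases Nat.even_or_odd k with ⟨n, hn⟩ | ⟨n, hn⟩
    · rw [hn, ← two_mul, ys_apply, fy_even]; simp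
    · rw [hn, xs_apply, fx_odd, if_neg (by omega)]; simp)
  rw [h.unique h2]
  simp only [ys_apply, xs_apply]
  have e1 := fy_odd 0 0
  have e2 := fx_odd 0 0
  simp only [mul_zero, zero_add] at e1 e2
  rw [e1, e2]
  simp

lemma inner_ys_xs_one : ⟪ys 1, xs 1⟫_ℂ = 0 := by
  have h := inner_hasSum (xs 1) (ys 1)
  refine h.unique ?_
  refine hasSum_zero.congr_fun fun k => ?_
  rcases Nat.even_or_odd k with ⟨n, hn⟩ | ⟨n, hn⟩
  · rw [hn, ← two_mul, ys_apply, fy_even]; simp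
  · rw [hn, xs_apply, fx_odd, if_neg (by omega)]; simp

/-- the functional -/
noncomputable def L (S : E →L[ℂ] E) : ℂ :=
  ⟪ys 0, S (xs 0)⟫_ℂ + ⟪ys 1, S (xs 1)⟫_ℂ - ⟪b 0, S (b 0)⟫_ℂ

lemma L_add (S S' : E →L[ℂ] E) : L (S + S') = L S + L S' := by
  simp only [L, ContinuousLinearMap.add_apply, inner_add_right]; ring

lemma L_smul (c : ℂ) (S : E →L[ℂ] E) : L (c • S) = c * L S := by
  simp only [L, ContinuousLinearMap.smul_apply, inner_smul_right]; ring

lemma L_sub (S S' : E →L[ℂ] E) : L (S - S') = L S - L S' := by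
  simp only [L, ContinuousLinearMap.sub_apply, inner_sub_right]; ring

lemma v_zero : v 0 = b 0 := by
  unfold v; simp [a_zero]

lemma T_b0 : T (b 0) = 0 := by
  rw [← v_zero, T_v]; simp [lam, lamR]

lemma L_pow (m : ℕ) : L (T ^ m) = 0 := by
  cases m with
  | zero =>
    simp only [L, pow_zero, ContinuousLinearMap.one_apply, inner_ys_xs_zero, inner_ys_xs_one,
      inner_b_b, if_true]
    ring
  | succ m =>
    have h0 := hTpow_inner m (xs 0) (ys 0)
    have h1 := hTpow_inner m (xs 1) (ys 1)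
    have h2 := h0.add h1
    have h3 : ⟪ys 0, (T ^ (m + 1)) (xs 0)⟫_ℂ + ⟪ys 1, (T ^ (m + 1)) (xs 1)⟫_ℂ = 0 := by
      refine h2.unique (hasSum_zero.congr_fun fun k => ?_)
      rcases Nat.eq_zero_or_pos k with rfl | hk
      · simp [lam, lamR]
      · have := orth_all k (by omega)
        rw [← mul_add, this, mul_zero]
    rw [L, h3, pow_succ, ContinuousLinearMap.mul_apply, T_b0]
    simp

lemma L_poly (p : Polynomial ℂ) : L (Polynomial.aeval T p) = 0 := by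
  induction p using Polynomial.induction_on' with
  | add p q hp hq => rw [map_add, L_add, hp, hq, add_zero]
  | monomial n c =>
    rw [Polynomial.aeval_monomial, ← Algebra.smul_def, L_smul, L_pow, mul_zero]

/-- The operator in `Alg Lat T` which is not in `W(T)`. -/
noncomputable def A : E →L[ℂ] E := 1 - rk (b 0) (b 0)

lemma A_apply (x : E) : A x = x - x 0 • b 0 := by
  rw [A, ContinuousLinearMap.sub_apply, ContinuousLinearMap.one_apply, rk_apply, inner_b]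

lemma L_A : L A = 1 := by
  rw [L, A_apply, A_apply, A_apply]
  simp only [xs_apply, fx_zero, zero_smul, sub_zero, b_apply, if_true, one_smul, sub_self,
    inner_zero_right, inner_ys_xs_zero, inner_ys_xs_one]
  norm_num

/-- `A` leaves invariant every closed invariant subspace of `T`. -/
lemma A_mem (M : Submodule ℂ E) (hM : IsClosed (M : Set E)) (hT' : ∀ x ∈ M, T x ∈ M) :
    ∀ x ∈ M, A x ∈ M := by
  intro x hx
  have hpow : ∀ m : ℕ, (T ^ m) x ∈ M := by
    intro m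
    induction m with
    | zero => simpa using hx
    | succ m ih =>
      rw [pow_succ', ContinuousLinearMap.mul_apply]
      exact hT' _ ih
  have hcl : (Mᗮ)ᗮ = M := by
    rw [Submodule.orthogonal_orthogonal_eq_closure]
    exact IsClosed.submodule_topologicalClosure_eq hM
  rw [← hcl, Submodule.mem_orthogonal]
  intro y hy
  have hy' : ∀ u ∈ M, ⟪y, u⟫_ℂ = 0 := by
    intro u hu
    exact (Submodule.mem_orthogonal' M y).1 hy u hu
  have hsum : Summable fun k => ‖lam k * (⟪w k, x⟫_ℂ * ⟪y, v k⟫_ℂ)‖ := by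
    refine Summable.of_nonneg_of_le (fun k => norm_nonneg _) (fun k => ?_)
      (sT.mul_left (‖x‖ * ‖y‖))
    rw [norm_mul, norm_mul]
    have h1 := norm_inner_le_norm (𝕜 := ℂ) (w k) x
    have h2 := norm_inner_le_norm (𝕜 := ℂ) y (v k)
    calc ‖lam k‖ * (‖⟪w k, x⟫_ℂ‖ * ‖⟪y, v k⟫_ℂ‖) ≤
        ‖lam k‖ * ((‖w k‖ * ‖x‖) * (‖y‖ * ‖v k‖)) := by gcongr
      _ = _ := by ring
  have hδ := dominance (fun k => ⟪w k, x⟫_ℂ * ⟪y, v k⟫_ℂ) hsum (fun m => by
    have := hTpow_inner m x y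
    rwa [hy' _ (hpow (m + 1))] at this)
  have h3 := strong x y hδ
  rw [A_apply, inner_sub_right, inner_smul_right, h3, ← inner_conj_symm, inner_b]
  ring

/-- **Core.** -/
theorem core : IsStarNormal N ∧
    (∃ (X : E →L[ℂ] E) (Y : E →L[ℂ] E), Function.Injective X ∧ DenseRange X ∧
      Function.Injective Y ∧ DenseRange Y ∧ X.comp T = N.comp X ∧ T.comp Y = Y.comp N) ∧
    (∀ M : Submodule ℂ E, IsClosed (M : Set E) → (∀ x ∈ M, T x ∈ M) → ∀ x ∈ M, A x ∈ M) ∧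
    ∃ (x y : Fin 3 → E), ∀ p : Polynomial ℂ,
      ¬ ∀ i : Fin 3, ‖⟪y i, (A - Polynomial.aeval T p) (x i)⟫_ℂ‖ < 1 / 3 := by
  refine ⟨N_normal, ⟨X, Y, X_inj, X_dense, Y_inj, Y_dense, XT, TY⟩, A_mem,
    ![xs 0, xs 1, b 0], ![ys 0, ys 1, b 0], ?_⟩
  intro p h
  have e0 := h 0
  have e1 := h 1
  have e2 := h 2
  simp only [Matrix.cons_val_zero, Matrix.cons_val_one, Matrix.cons_val] at e0 e1 e2
  have h1 : L (A - Polynomial.aeval T p) = 1 := by rw [L_sub, L_A, L_poly, sub_zero]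
  have h2 : ‖L (A - Polynomial.aeval T p)‖ < 1 := by
    unfold L
    refine (norm_sub_le _ _).trans_lt ?_
    have := norm_add_le ⟪ys 0, (A - Polynomial.aeval T p) (xs 0)⟫_ℂ
      ⟪ys 1, (A - Polynomial.aeval T p) (xs 1)⟫_ℂ
    linarith
  rw [h1, norm_one] at h2
  exact lt_irrefl _ h2

end Pool.Agent.H70R3.Reflex
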